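import Pool.Agent.helper62.K3.Real

/-! Project K3X (MP_08f931): from the checked table to the certificate, assembly. helper62. -/

set_option exponentiation.threshold 3000

namespace Pool.Agent.helper62.K3

open Finset Pool.Agent.helper82.K3X

noncomputable section

variable {T : T3}

theorem pv_congr {a b : ℕ} (h : a % 1594323 = b % 1594323) : pv T a = pv T b := by
  unfold pv; rw [h]

theorem ev_congr {a b : ℕ} (h : a % 1594323 = b % 1594323) : ev T a = ev T b := by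
  unfold ev; rw [h]

theorem lv_congr {a b : ℕ} (h : a % 1594323 = b % 1594323) : lv T a = lv T b := by
  unfold lv; rw [h]

/-- all classes are good -/
def AG (T : T3) : Prop := ∀ c, c % 3 = 2 → ∃ m, m % 1594323 = c % 1594323 ∧ Good T m

theorem AG.of {e : ℕ} (h : CK T 531441 2 e) : AG T := by
  intro c hc
  obtain ⟨j, hj, h2⟩ := cover c hc
  exact ⟨_, h2, h.1 j hj⟩

theorem AG.pv_pos (h : AG T) (c : ℕ) : 1 ≤ pv T c := by
  obtain ⟨m, hm, hg⟩ := h (3 * (c % 1594323 / 3) + 2) (by omega)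
  have h1 : pv T c = pv T m := by
    unfold pv
    have : m % 1594323 / 3 = c % 1594323 / 3 := by rw [hm]; omega
    rw [this]
  rw [h1]
  exact hg.pos

theorem ev_pos (c : ℕ) : 1 ≤ ev T c := by
  unfold ev hv
  have h : ∀ x y : ℕ, 1 ≤ (Nat.add 2 x) <<< y := by
    intro x y
    rw [Nat.shiftLeft_eq]
    exact Nat.mul_pos (by show 0 < 2 + x; omega) (by positivity)
  exact h _ _

theorem lv_pos (c : ℕ) : 1 ≤ lv T c := by
  unfold lv hw
  have h : ∀ x y : ℕ, 1 ≤ (Nat.add 2048 x) <<< y := by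
    intro x y
    rw [Nat.shiftLeft_eq]
    exact Nat.mul_pos (by show 0 < 2048 + x; omega) (by positivity)
  exact h _ _

theorem on_nxt (i a : ℕ) : (4 ^ i * a % 9 = 2 →
      on T (4 ^ i * a) = 10826233031 * (pv T (nxt i a) * lv T (nxt i a))) ∧
    (4 ^ i * a % 9 = 8 →
      on T (4 ^ i * a) = 32933648501 * (pv T (nxt i a) * lv T (nxt i a))) := by
  refine ⟨fun h2 => ?_, fun h8 => ?_⟩
  · rw [on, if_pos h2, nxt, if_pos h2]
  · rw [on, if_neg (by omega), if_pos h8, nxt, if_neg (by omega)]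

theorem gn_nxt (i a : ℕ) : gn T (4 ^ i * a) = 0 ∧ (4 ^ i * a % 9 ≠ 2 ∧ 4 ^ i * a % 9 ≠ 8) ∨
    (4 ^ i * a % 9 = 2 ∧ gn T (4 ^ i * a) = 12628 * pv T (nxt i a) ∧
      om T (4 ^ i * a) = 41848 * (pv T (nxt i a) ^ 15 * ev T (nxt i a)) ∧
      gro i a = 4 ^ i * (4 / 3)) ∨
    (4 ^ i * a % 9 = 8 ∧ gn T (4 ^ i * a) = 23647 * pv T (nxt i a) ∧
      om T (4 ^ i * a) = 98139626 * (pv T (nxt i a) ^ 15 * ev T (nxt i a)) ∧
      gro i a = 4 ^ i * (2 / 3)) := by
  by_cases h2 : 4 ^ i * a % 9 = 2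
  · right; left
    refine ⟨h2, ?_, ?_, ?_⟩
    · rw [gn, if_pos h2, nxt, if_pos h2]
    · rw [om, if_pos h2, nxt, if_pos h2]
    · rw [gro, if_pos h2]
  · by_cases h8 : 4 ^ i * a % 9 = 8
    · right; right
      refine ⟨h8, ?_, ?_, ?_⟩
      · rw [gn, if_neg h2, if_pos h8, nxt, if_neg h2]
      · rw [om, if_neg h2, if_pos h8, nxt, if_neg h2]
      · rw [gro, if_neg h2]
    · left
      exact ⟨by rw [gn, if_neg h2, if_neg h8], h2, h8⟩

theorem Un_cast (a : ℕ) : (Un T a : ℝ) = ∑ i ∈ range 7, ((cc i * gn T (4 ^ i * a) : ℕ) : ℝ) := by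
  unfold Un
  push_cast
  refine sum_congr rfl fun i _ => ?_
  unfold cc
  push_cast
  ring

/-- two of the letters `0, 1, 2` are allowed -/
theorem two_letters (h : AG T) (a : ℕ) (ha : a % 3 = 2) (i : ℕ) :
    ∃ j < 3, j ≠ i ∧ 1 ≤ gn T (4 ^ j * a) := by
  have key : ∀ j, 4 ^ j * a % 9 ≠ 5 → 4 ^ j * a % 3 = 2 → 1 ≤ gn T (4 ^ j * a) := by
    intro j h5 h3
    rcases gn_nxt (T := T) j a with h1 | h1 | h1
    · omega
    · rw [h1.2.1]; have := h.pv_pos (nxt j a); omega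
    · rw [h1.2.1]; have := h.pv_pos (nxt j a); omega
  have e0 : 4 ^ 0 * a = a := by simp
  have e1 : 4 ^ 1 * a = 4 * a := by simp
  have e2 : 4 ^ 2 * a = 16 * a := by norm_num
  have k0 := key 0
  have k1 := key 1
  have k2 := key 2
  rw [e0] at k0
  rw [e1] at k1
  rw [e2] at k2
  have hc : a % 9 = 2 ∨ a % 9 = 5 ∨ a % 9 = 8 := by omega
  by_cases h0 : a % 9 ≠ 5 ∧ 0 ≠ i
  · exact ⟨0, by norm_num, h0.2, by rw [e0]; exact k0 h0.1 ha⟩
  · by_cases h1 : 4 * a % 9 ≠ 5 ∧ 1 ≠ i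
    · exact ⟨1, by norm_num, h1.2, by rw [e1]; exact k1 h1.1 (by omega)⟩
    · exact ⟨2, by norm_num, by omega, by rw [e2]; exact k2 (by omega) (by omega)⟩

theorem cc_pos (i : ℕ) : 1 ≤ cc i := Nat.mul_pos (by positivity) (by positivity)

theorem Un_pos (h : AG T) (a : ℕ) (ha : a % 3 = 2) : 0 < Un T a := by
  obtain ⟨j, hj, -, h1⟩ := two_letters h a ha 7
  unfold Un
  have h2 : 73 ^ j * 256 ^ (6 - j) * gn T (4 ^ j * a) ≤
      ∑ i ∈ range 7, 73 ^ i * 256 ^ (6 - i) * gn T (4 ^ i * a) :=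
    single_le_sum (f := fun i => 73 ^ i * 256 ^ (6 - i) * gn T (4 ^ i * a))
      (fun _ _ => Nat.zero_le _) (mem_range.2 (by omega))
  have h3 : 0 < 73 ^ j * 256 ^ (6 - j) * gn T (4 ^ j * a) :=
    Nat.mul_pos (Nat.mul_pos (by positivity) (by positivity)) h1
  omega

theorem pp_nn (i a : ℕ) : 0 ≤ pp T i a := by
  unfold pp
  split_ifs
  · positivity
  · exact le_refl 0

theorem pp_sum (h : AG T) (a : ℕ) (ha : a % 3 = 2) : ∑ i ∈ range 7, pp T i a = 1 := by
  have hU : (0 : ℝ) < Un T a := by exact_mod_cast Un_pos h a ha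
  have h1 : ∑ i ∈ range 7, pp T i a =
      ∑ i ∈ range 7, ((cc i * gn T (4 ^ i * a) : ℕ) : ℝ) / (Un T a : ℝ) :=
    sum_congr rfl fun i hi => by rw [pp, if_pos (mem_range.1 hi)]
  rw [h1, ← sum_div, ← Un_cast, div_self hU.ne']

theorem pp_wt : Wt 13 (pp T) where
  nn := pp_nn
  inv i a h := by
    have h1 : gn T (4 ^ i * a) = 0 := by rw [gn, if_neg (by omega), if_neg (by omega)]
    unfold pp
    rw [h1]
    simp
  per i a := by
    have e : (3 : ℕ) ^ (13 + 1) = 4782969 := by norm_num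
    have h1 : a + 3 ^ (13 + 1) ≡ a [MOD 4782969] := by
      unfold Nat.ModEq; omega
    unfold pp
    rw [Un_congr T h1, gn_congr T (h1.mul_left (4 ^ i))]

theorem pp_le (h : AG T) : ∃ d : ℝ, 0 < d ∧ d < 1 ∧ ∀ i a, pp T i a ≤ 1 - d := by
  refine ⟨1 / 2 ^ 80, by positivity, by norm_num, fun i a => ?_⟩
  have hd : (0 : ℝ) ≤ 1 - 1 / 2 ^ 80 := by norm_num
  by_cases hi : i < 7
  · by_cases ha : a % 3 = 2
    · obtain ⟨j, hj, hji, h1⟩ := two_letters h a ha i
      have hU : (0 : ℝ) < Un T a := by exact_mod_cast Un_pos h a ha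
      have h2 : pp T i a + pp T j a ≤ 1 := by
        rw [← pp_sum h a ha]
        have h3 : ∑ k ∈ ({i, j} : Finset ℕ), pp T k a ≤ ∑ k ∈ range 7, pp T k a :=
          sum_le_sum_of_subset_of_nonneg (by
            intro k hk
            rw [mem_insert, mem_singleton] at hk
            rw [mem_range]
            omega) (fun k _ _ => pp_nn k a)
        rwa [sum_pair (Ne.symm hji)] at h3
      have h4 : (1 : ℝ) / 2 ^ 80 ≤ pp T j a := by
        rw [pp, if_pos (by omega)]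
        have h5 : (1 : ℝ) ≤ ((cc j * gn T (4 ^ j * a) : ℕ) : ℝ) := by
          exact_mod_cast Nat.mul_pos (cc_pos j) h1
        have h6 : (Un T a : ℝ) ≤ 2 ^ 80 := by exact_mod_cast (Un_lt T a).le
        exact div_le_div₀ (by linarith) h5 hU h6
      linarith
    · have h1 : gn T (4 ^ i * a) = 0 := by
        have h3 : 4 ^ i * a % 3 = a % 3 := by
          rw [Nat.mul_mod, Nat.pow_mod]
          norm_num
        rw [gn, if_neg (by omega), if_neg (by omega)]
      unfold pp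
      rw [h1]
      simpa using hd
  · rw [pp, if_neg hi]
    exact hd

end

end Pool.Agent.helper62.K3
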