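import Pool.Agent.helper62.K3.C0
import Pool.Agent.helper62.K3.C1
import Pool.Agent.helper62.K3.C2
import Pool.Agent.helper62.K3.C3
import Pool.Agent.helper62.K3.C4
import Pool.Agent.helper62.K3.C5
import Pool.Agent.helper62.K3.C6
import Pool.Agent.helper62.K3.C7
import Pool.Agent.helper62.K3.C8
import Pool.Agent.helper62.K3.C9
import Pool.Agent.helper62.K3.C10
import Pool.Agent.helper62.K3.C11
import Pool.Agent.helper62.K3.C12
import Pool.Agent.helper62.K3.C13
import Pool.Agent.helper62.K3.C14
import Pool.Agent.helper62.K3.C15
import Pool.Agent.helper62.K3.C16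
import Pool.Agent.helper62.K3.C17
import Pool.Agent.helper62.K3.C18
import Pool.Agent.helper62.K3.C19
import Pool.Agent.helper62.K3.C20
import Pool.Agent.helper62.K3.C21
import Pool.Agent.helper62.K3.C22
import Pool.Agent.helper62.K3.C23
import Pool.Agent.helper62.K3.C24
import Pool.Agent.helper62.K3.C25
import Pool.Agent.helper62.K3.C26

/-! Project K3X (MP_08f931): all groups. helper62. -/

namespace Pool.Agent.helper62.K3.Chk

open Pool.Agent.helper62.K3

theorem all : CK Dat.d0_0 531441 2 1594325 :=
  (((((((((((((((((((((((((c0.trans c1).trans c2).trans c3).trans c4).trans c5).trans c6).trans c7).trans c8).trans c9).trans c10).trans c11).trans c12).trans c13).trans c14).trans c15).trans c16).trans c17).trans c18).trans c19).trans c20).trans c21).trans c22).trans c23).trans c24).trans c25).tr c26 rfl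

end Pool.Agent.helper62.K3.Chk
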