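import Pool.Agent.helper62.K3.Snd3

/-! Project K3X (MP_08f931): the coefficient as a numeral. helper62. -/

namespace Pool.Agent.helper62.K3

theorem cof_lit : cof = 0x100000000000000000000000000000000000000000000000000000000000049000000000000000000000000000000000000000000000000000000000014d10000000000000000000000000000000000000000000000000000000005ef9900000000000000000000000000000000000000000000000000000001b152a10000000000000000000000000000000000000000000000000000007b908fe90000000000000000000000000000000000000000000000000000233c390971 := by decide +kernel

theorem chunk_ck' (T : T3) (n m e : ℕ) (hm : m < 4782969) (h3 : m % 3 = 2)
    (h : chunk T 0x100000000000000000000000000000000000000000000000000000000000049000000000000000000000000000000000000000000000000000000000014d10000000000000000000000000000000000000000000000000000000005ef9900000000000000000000000000000000000000000000000000000001b152a10000000000000000000000000000000000000000000000000000007b908fe90000000000000000000000000000000000000000000000000000233c390971 n m e = true) :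
    CK T n m e := by
  rw [← cof_lit] at h
  exact chunk_ck T n m e hm h3 h

theorem CK.tr {T : T3} {n n' s m e e' : ℕ} (h : CK T n m e) (h' : CK T n' e e')
    (hs : n + n' = s) : CK T s m e' := hs ▸ h.trans h'

end Pool.Agent.helper62.K3
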