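import Pool.Agent.helper62.K3.Snd3

/-! Project K3X (MP_08f931): the orbit of 2 under division by 4 modulo 3 ^ 13. helper62. -/

namespace Pool.Agent.helper62.K3

open Finset

theorem dvd_of_four (n : ℕ) (hn : n ≠ 0) (h : 3 ^ 13 ∣ 4 ^ n - 1) : 3 ^ 12 ∣ n := by
  have : Fact (Nat.Prime 3) := ⟨by norm_num⟩
  have h1 : padicValNat 3 (4 ^ n - 1 ^ n) = padicValNat 3 (4 - 1) + padicValNat 3 n :=
    padicValNat.pow_sub_pow (by decide) (by norm_num) (by norm_num) (by norm_num) hn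
  rw [one_pow] at h1
  have h2 : padicValNat 3 (4 - 1) = 1 := by
    have : (4 - 1 : ℕ) = 3 := rfl
    rw [this, padicValNat_self]
  have h3 : 1 < 4 ^ n := Nat.one_lt_pow hn (by norm_num)
  have h4 : 13 ≤ padicValNat 3 (4 ^ n - 1) :=
    (padicValNat_dvd_iff_le (by omega)).1 h
  rw [padicValNat_dvd_iff_le hn]
  omega

theorem four_iter (m : ℕ) : ∀ j, 4 ^ j * sg^[j] m ≡ m [MOD 4782969]
  | 0 => by simp [Nat.ModEq]
  | j + 1 => by
    rw [Function.iterate_succ_apply', pow_succ, mul_assoc]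
    exact ((four_sg _).mul_left _).trans (four_iter m j)

theorem iter_mod3 (m : ℕ) : ∀ j, sg^[j] m % 3 = m % 3
  | 0 => rfl
  | j + 1 => by
    rw [Function.iterate_succ_apply', sg_mod3]
    exact iter_mod3 m j

theorem iter_inj {i j : ℕ} (hij : i < j) (hj : j < 531441)
    (h : sg^[i] 2 % 1594323 = sg^[j] 2 % 1594323) : False := by
  have hd : (1594323 : ℕ) ∣ 4782969 := by norm_num
  have h1 : 4 ^ j * sg^[j] 2 ≡ 2 [MOD 1594323] := (four_iter 2 j).of_dvd hd
  have h2 : 4 ^ i * sg^[i] 2 ≡ 2 [MOD 1594323] := (four_iter 2 i).of_dvd hd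
  have h3 : sg^[i] 2 ≡ sg^[j] 2 [MOD 1594323] := h
  have h4 : 4 ^ (j - i) * 2 ≡ 2 [MOD 1594323] := by
    calc 4 ^ (j - i) * 2 ≡ 4 ^ (j - i) * (4 ^ i * sg^[i] 2) [MOD 1594323] :=
          (h2.mul_left _).symm
      _ = 4 ^ j * sg^[i] 2 := by
          rw [← mul_assoc, ← pow_add]
          congr 2
          omega
      _ ≡ 4 ^ j * sg^[j] 2 [MOD 1594323] := h3.mul_left _
      _ ≡ 2 [MOD 1594323] := h1
  have h5 : 1 ≤ 4 ^ (j - i) := Nat.one_le_pow _ _ (by norm_num)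
  have h6 : (1594323 : ℕ) ∣ 4 ^ (j - i) * 2 - 2 := (Nat.modEq_iff_dvd' (by omega)).1 h4.symm
  have h7 : 4 ^ (j - i) * 2 - 2 = (4 ^ (j - i) - 1) * 2 := by omega
  rw [h7] at h6
  have h8 : (1594323 : ℕ) ∣ 4 ^ (j - i) - 1 :=
    Nat.Coprime.dvd_of_dvd_mul_right (by norm_num) h6
  have h9 : (3 ^ 12 : ℕ) ∣ j - i := dvd_of_four (j - i) (by omega) (by norm_num; exact h8)
  have h10 := Nat.le_of_dvd (by omega) h9
  norm_num at h10
  omega

theorem cover (c : ℕ) (hc : c % 3 = 2) : ∃ j < 531441, sg^[j] 2 % 1594323 = c % 1594323 := by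
  classical
  have h := Finset.surjOn_of_injOn_of_card_le (s := range 531441)
    (t := (range 531441).image (fun i => 3 * i + 2)) (fun j => sg^[j] 2 % 1594323) ?_ ?_ ?_
  · have hm : c % 1594323 ∈ (((range 531441).image (fun i => 3 * i + 2) : Finset ℕ) : Set ℕ) := by
      rw [mem_coe, mem_image]
      exact ⟨c % 1594323 / 3, mem_range.2 (by omega), by omega⟩
    obtain ⟨j, hj, hj2⟩ := h hm
    exact ⟨j, mem_range.1 hj, hj2⟩
  · intro j _
    have h3 := iter_mod3 2 j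
    rw [mem_coe, mem_image]
    refine ⟨sg^[j] 2 % 1594323 / 3, mem_range.2 (by omega), ?_⟩
    show 3 * (sg^[j] 2 % 1594323 / 3) + 2 = sg^[j] 2 % 1594323
    omega
  · intro i hi j hj hij
    have hi' := mem_range.1 hi
    have hj' := mem_range.1 hj
    rcases Nat.lt_trichotomy i j with h | h | h
    · exact (iter_inj h hj' hij).elim
    · exact h
    · exact (iter_inj h hi' hij.symm).elim
  · exact card_image_le

end Pool.Agent.helper62.K3
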