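import Pool.Agent.helper62.K3.Asm

/-! Project K3X (MP_08f931): the certificate. helper62. -/

set_option exponentiation.threshold 3000

namespace Pool.Agent.helper62.K3

open Finset Pool.Agent.helper82.K3X

noncomputable section

variable {T : T3}

/-- the superharmonic function for the high exponent -/
def hh (T : T3) (a : ℕ) : ℝ := (65536 / (pv T a : ℝ)) ^ 14

theorem term_hi (h : AG T) (a : ℕ) (ha : a % 3 = 2) (i : ℕ) (hi : i < 7) :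
    wq (pp T) 14 (181 / 200) i a * hh T (nxt i a) ≤
      65536 ^ 14 * (2 ^ 62) ^ 14 / (Un T a : ℝ) ^ 15 * ((cc i * gn T (4 ^ i * a) : ℕ) : ℝ) := by
  have hU : (0 : ℝ) < Un T a := by exact_mod_cast Un_pos h a ha
  have hP : (1 : ℝ) ≤ pv T (nxt i a) := by exact_mod_cast h.pv_pos (nxt i a)
  have main : ∀ (A : ℕ) (y : ℝ), 0 ≤ y → gro i a = 4 ^ i * y →
      (A : ℝ) * y ^ ((181 : ℝ) / 200) ≤ 2 ^ 14 → gn T (4 ^ i * a) = A * pv T (nxt i a) →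
      wq (pp T) 14 (181 / 200) i a * hh T (nxt i a) ≤
      65536 ^ 14 * (2 ^ 62) ^ 14 / (Un T a : ℝ) ^ 15 * ((cc i * gn T (4 ^ i * a) : ℕ) : ℝ) := by
    intro A y hy hg hA hgn
    have h1 := cc_hi i hi A y hy hA
    rw [wq, hg, gro_pow _ _ (by positivity), pp, if_pos hi, hgn, hh]
    obtain ⟨w, hw⟩ : ∃ w : ℝ, w = (4 ^ i * y) ^ ((181 : ℝ) / 200) := ⟨_, rfl⟩
    have hw0 : 0 ≤ w := by rw [hw]; positivity
    rw [← hw] at h1 ⊢
    push_cast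
    have h2 : ((cc i : ℝ) * A * w) ^ 14 ≤ (2 ^ 62) ^ 14 :=
      pow_le_pow_left₀ (by positivity) h1 14
    have e1 : (((cc i : ℝ) * (A * pv T (nxt i a)) / Un T a) ^ (14 + 1) * w ^ 14) *
        (65536 / (pv T (nxt i a) : ℝ)) ^ 14 =
        65536 ^ 14 * (((cc i : ℝ) * A * w) ^ 14) / (Un T a : ℝ) ^ 15 *
          ((cc i : ℝ) * (A * pv T (nxt i a))) := by
      have e2 : (14 + 1 : ℕ) = 15 := rfl
      have hP' : (pv T (nxt i a) : ℝ) ≠ 0 := by positivity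
      rw [e2, div_pow, div_pow]
      field_simp
    rw [e1]
    gcongr
  rcases gn_nxt (T := T) i a with h1 | h1 | h1
  · rw [wq, pp, if_pos hi, h1.1]
    simp
  · exact main 12628 (4 / 3) (by norm_num) h1.2.2.2 (by exact_mod_cast n43) h1.2.1
  · exact main 23647 (2 / 3) (by norm_num) h1.2.2.2 (by exact_mod_cast n23) h1.2.1

theorem sum_hi (h : AG T) (a : ℕ) (ha : a % 3 = 2) :
    ∑ i ∈ range 7, wq (pp T) 14 (181 / 200) i a * hh T (nxt i a) ≤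
      65536 ^ 14 * ((2 ^ 62) ^ 14 / (Un T a : ℝ) ^ 14) := by
  have hU : (0 : ℝ) < Un T a := by exact_mod_cast Un_pos h a ha
  calc ∑ i ∈ range 7, wq (pp T) 14 (181 / 200) i a * hh T (nxt i a)
      ≤ ∑ i ∈ range 7, 65536 ^ 14 * (2 ^ 62) ^ 14 / (Un T a : ℝ) ^ 15 *
          ((cc i * gn T (4 ^ i * a) : ℕ) : ℝ) :=
        sum_le_sum fun i hi => term_hi h a ha i (mem_range.1 hi)
    _ = 65536 ^ 14 * (2 ^ 62) ^ 14 / (Un T a : ℝ) ^ 15 * Un T a := by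
        rw [← mul_sum, ← Un_cast]
    _ = 65536 ^ 14 * ((2 ^ 62) ^ 14 / (Un T a : ℝ) ^ 14) := by
        field_simp

theorem term_lo (h : AG T) (a : ℕ) (ha : a % 3 = 2) (i : ℕ) (hi : i < 7) :
    wq (pp T) 14 (17 / 100) i a * (ev T (nxt i a) : ℝ) ≤
      2 ^ 910 / (Un T a : ℝ) ^ 15 * (gam ^ i * (om T (4 ^ i * a) : ℝ)) := by
  have hU : (0 : ℝ) < Un T a := by exact_mod_cast Un_pos h a ha
  have main : ∀ (A E : ℕ) (y : ℝ), 0 ≤ y → gro i a = 4 ^ i * y →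
      (A : ℝ) ^ 15 * y ^ ((119 : ℝ) / 50) * 2 ^ 20 ≤ 2 ^ 210 * E →
      gn T (4 ^ i * a) = A * pv T (nxt i a) →
      om T (4 ^ i * a) = E * (pv T (nxt i a) ^ 15 * ev T (nxt i a)) →
      wq (pp T) 14 (17 / 100) i a * (ev T (nxt i a) : ℝ) ≤
      2 ^ 910 / (Un T a : ℝ) ^ 15 * (gam ^ i * (om T (4 ^ i * a) : ℝ)) := by
    intro A E y hy hg hA hgn hom
    have h1 := cc_lo i hi A E y hy hA
    have e0 : ((14 : ℕ) : ℝ) * (17 / 100) = 119 / 50 := by norm_num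
    rw [wq, hg, e0, pp, if_pos hi, hgn, hom]
    obtain ⟨w, hw⟩ : ∃ w : ℝ, w = (4 ^ i * y) ^ ((119 : ℝ) / 50) := ⟨_, rfl⟩
    have hw0 : 0 ≤ w := by rw [hw]; positivity
    rw [← hw] at h1 ⊢
    push_cast
    have e2 : ∀ x : ℝ, x ^ 930 = x ^ 910 * x ^ 20 := fun x => by rw [← pow_add]
    rw [e2] at h1
    have h3 : ((cc i : ℝ) * A) ^ 15 * w ≤ 2 ^ 910 * (gam ^ i * E) := by
      have h4 : (0 : ℝ) < 2 ^ 20 := by norm_num
      refine le_of_mul_le_mul_right ?_ h4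
      calc ((cc i : ℝ) * A) ^ 15 * w * 2 ^ 20 ≤ 2 ^ 910 * 2 ^ 20 * (gam ^ i * E) := h1
        _ = 2 ^ 910 * (gam ^ i * E) * 2 ^ 20 := by
          generalize (2 : ℝ) ^ 910 = b
          ring
    revert h3
    generalize (2 : ℝ) ^ 910 = b
    intro h3
    have e1 : (((cc i : ℝ) * (A * pv T (nxt i a)) / Un T a) ^ (14 + 1) * w) *
        (ev T (nxt i a) : ℝ) =
        (((cc i : ℝ) * A) ^ 15 * w) * ((pv T (nxt i a) : ℝ) ^ 15 * ev T (nxt i a) /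
          (Un T a : ℝ) ^ 15) := by
      have e2 : (14 + 1 : ℕ) = 15 := rfl
      rw [e2, div_pow]
      ring
    rw [e1]
    calc (((cc i : ℝ) * A) ^ 15 * w) * ((pv T (nxt i a) : ℝ) ^ 15 * ev T (nxt i a) /
          (Un T a : ℝ) ^ 15)
        ≤ (b * (gam ^ i * E)) * ((pv T (nxt i a) : ℝ) ^ 15 * ev T (nxt i a) /
          (Un T a : ℝ) ^ 15) := mul_le_mul_of_nonneg_right h3 (by positivity)
      _ = b / (Un T a : ℝ) ^ 15 * (gam ^ i * (E * ((pv T (nxt i a) : ℝ) ^ 15 *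
          ev T (nxt i a)))) := by ring
  rcases gn_nxt (T := T) i a with h1 | h1 | h1
  · have h2 : om T (4 ^ i * a) = 0 := by rw [om, if_neg h1.2.1, if_neg h1.2.2]
    rw [wq, pp, if_pos hi, h1.1, h2]
    simp
  · exact main 12628 41848 (4 / 3) (by norm_num) h1.2.2.2 (by exact_mod_cast l43) h1.2.1 h1.2.2.1
  · exact main 23647 98139626 (2 / 3) (by norm_num) h1.2.2.2 (by exact_mod_cast l23) h1.2.1
      h1.2.2.1

theorem sum_lo (h : AG T) (a : ℕ) (ha : a % 3 = 2) :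
    ∑ i ∈ range 7, wq (pp T) 14 (17 / 100) i a * (ev T (nxt i a) : ℝ) ≤
      2 ^ 910 / (Un T a : ℝ) ^ 15 * hs T 7 a := by
  unfold hs
  rw [mul_sum]
  exact sum_le_sum fun i hi => term_lo h a ha i (mem_range.1 hi)

theorem perm3 (F : ℕ → ℝ) (hF : ∀ a b, a ≡ b [MOD 4782969] → F a = F b) (c m : ℕ)
    (h : m % 1594323 = c % 1594323) :
    ∑ l ∈ range 3, F (c + l * 3 ^ 13) = F m + F (m + 1594323) + F (m + 2 * 1594323) := by
  have e : (3 : ℕ) ^ 13 = 1594323 := by norm_num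
  simp only [sum_range_succ, sum_range_zero, zero_add, e, zero_mul, add_zero, one_mul]
  have hc : c ≡ m [MOD 4782969] ∨ c ≡ m + 1594323 [MOD 4782969] ∨
      c ≡ m + 2 * 1594323 [MOD 4782969] := by
    unfold Nat.ModEq; omega
  rcases hc with hc | hc | hc
  · rw [hF c m hc, hF (c + 1594323) (m + 1594323) (hc.add_right _),
      hF (c + 2 * 1594323) (m + 2 * 1594323) (hc.add_right _)]
  · have h1 : c + 1594323 ≡ m + 2 * 1594323 [MOD 4782969] := by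
      unfold Nat.ModEq at *; omega
    have h2 : c + 2 * 1594323 ≡ m [MOD 4782969] := by
      unfold Nat.ModEq at *; omega
    rw [hF _ _ hc, hF _ _ h1, hF _ _ h2]
    ring
  · have h1 : c + 1594323 ≡ m [MOD 4782969] := by
      unfold Nat.ModEq at *; omega
    have h2 : c + 2 * 1594323 ≡ m + 1594323 [MOD 4782969] := by
      unfold Nat.ModEq at *; omega
    rw [hF _ _ hc, hF _ _ h1, hF _ _ h2]
    ring

theorem real_div_le (x y : ℕ) : (x : ℝ) / y ≤ ((x / y + 1 : ℕ) : ℝ) := by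
  rw [← Nat.floor_div_eq_div (K := ℝ)]
  push_cast
  exact (Nat.lt_floor_add_one _).le

theorem good_hi {m : ℕ} (h : Good T m) :
    (pv T m : ℝ) ^ 14 * ((2 ^ 62) ^ 14 / (Un T m : ℝ) ^ 14) +
      (pv T m : ℝ) ^ 14 * ((2 ^ 62) ^ 14 / (Un T (m + 1594323) : ℝ) ^ 14) +
      (pv T m : ℝ) ^ 14 * ((2 ^ 62) ^ 14 / (Un T (m + 2 * 1594323) : ℝ) ^ 14) ≤
      3 * (2971628820000 / (3 * 2 ^ 40)) := by
  have h1 := h.hi
  have h2 : ((pv T m ^ 14 * 2 ^ 908 : ℕ) : ℝ) / ((Un T m ^ 14 : ℕ) : ℝ) +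
      (((pv T m ^ 14 * 2 ^ 908 : ℕ) : ℝ) / ((Un T (m + 1594323) ^ 14 : ℕ) : ℝ) +
      ((pv T m ^ 14 * 2 ^ 908 : ℕ) : ℝ) / ((Un T (m + 2 * 1594323) ^ 14 : ℕ) : ℝ)) ≤
      2971628820000 := by
    refine (add_le_add (real_div_le _ _) (add_le_add (real_div_le _ _) (real_div_le _ _))).trans ?_
    exact_mod_cast h1
  simp only [Nat.cast_mul, Nat.cast_pow, Nat.cast_ofNat] at h2
  have e : ∀ x : ℝ, x ^ 908 = (x ^ 62) ^ 14 * x ^ 40 := fun x => by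
    rw [← pow_mul, ← pow_add]
  rw [e] at h2
  revert h2
  generalize ((2 : ℝ) ^ 62) ^ 14 = b
  intro h2
  have h3 : (0 : ℝ) < 2 ^ 40 := by norm_num
  refine le_of_mul_le_mul_right ?_ h3
  calc _ = (pv T m : ℝ) ^ 14 * (b * 2 ^ 40) / (Un T m : ℝ) ^ 14 +
      ((pv T m : ℝ) ^ 14 * (b * 2 ^ 40) / (Un T (m + 1594323) : ℝ) ^ 14 +
      (pv T m : ℝ) ^ 14 * (b * 2 ^ 40) / (Un T (m + 2 * 1594323) : ℝ) ^ 14) := by ring
    _ ≤ 2971628820000 := h2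
    _ = 3 * (2971628820000 / (3 * 2 ^ 40)) * 2 ^ 40 := by norm_num

theorem good_lo {m : ℕ} (h : Good T m) :
    2 ^ 910 / (Un T m : ℝ) ^ 15 * hs T 7 m +
      2 ^ 910 / (Un T (m + 1594323) : ℝ) ^ 15 * hs T 7 (m + 1594323) +
      2 ^ 910 / (Un T (m + 2 * 1594323) : ℝ) ^ 15 * hs T 7 (m + 2 * 1594323) ≤
      3 * (1325288500000 / (3 * 2 ^ 40)) * (ev T m : ℝ) := by
  obtain ⟨H0, H1, H2, a0, a1, a2, h1⟩ := h.lo
  have h2 : ((H0 * 2 ^ 950 : ℕ) : ℝ) / ((Un T m ^ 15 : ℕ) : ℝ) +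
      (((H1 * 2 ^ 950 : ℕ) : ℝ) / ((Un T (m + 1594323) ^ 15 : ℕ) : ℝ) +
      ((H2 * 2 ^ 950 : ℕ) : ℝ) / ((Un T (m + 2 * 1594323) ^ 15 : ℕ) : ℝ)) ≤
      1325288500000 * (ev T m : ℝ) := by
    refine (add_le_add (real_div_le _ _) (add_le_add (real_div_le _ _) (real_div_le _ _))).trans ?_
    exact_mod_cast h1
  simp only [Nat.cast_mul, Nat.cast_pow, Nat.cast_ofNat] at h2
  have e : ∀ x : ℝ, x ^ 950 = x ^ 910 * x ^ 40 := fun x => by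
    rw [← pow_add]
  rw [e] at h2
  have hb : (0 : ℝ) ≤ 2 ^ 910 := pow_nonneg (by norm_num) _
  revert h2 hb
  generalize (2 : ℝ) ^ 910 = b
  intro h2 hb
  have h3 : (0 : ℝ) < 2 ^ 40 := by norm_num
  refine le_of_mul_le_mul_right ?_ h3
  calc _ ≤ (b / (Un T m : ℝ) ^ 15 * H0 + b / (Un T (m + 1594323) : ℝ) ^ 15 * H1 +
      b / (Un T (m + 2 * 1594323) : ℝ) ^ 15 * H2) * 2 ^ 40 := by gcongr
    _ = H0 * (b * 2 ^ 40) / (Un T m : ℝ) ^ 15 +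
      (H1 * (b * 2 ^ 40) / (Un T (m + 1594323) : ℝ) ^ 15 +
      H2 * (b * 2 ^ 40) / (Un T (m + 2 * 1594323) : ℝ) ^ 15) := by ring
    _ ≤ 1325288500000 * (ev T m : ℝ) := h2
    _ = 3 * (1325288500000 / (3 * 2 ^ 40)) * (ev T m : ℝ) * 2 ^ 40 := by ring

theorem term_th (h : AG T) (a : ℕ) (ha : a % 3 = 2) (i : ℕ) (hi : i < 7) :
    pp T i a * gro i a ^ (-(7 / 10 : ℝ)) * (lv T (nxt i a) : ℝ) ≤
      2 ^ 28 / (Un T a : ℝ) * (gan ^ i * (on T (4 ^ i * a) : ℝ)) := by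
  have hU : (0 : ℝ) < Un T a := by exact_mod_cast Un_pos h a ha
  have main : ∀ (A F : ℕ) (y : ℝ), 0 < y → gro i a = 4 ^ i * y →
      (A : ℝ) * y ^ (-(7 / 10 : ℝ)) * 2 ^ 20 ≤ F →
      gn T (4 ^ i * a) = A * pv T (nxt i a) →
      on T (4 ^ i * a) = F * (pv T (nxt i a) * lv T (nxt i a)) →
      pp T i a * gro i a ^ (-(7 / 10 : ℝ)) * (lv T (nxt i a) : ℝ) ≤
      2 ^ 28 / (Un T a : ℝ) * (gan ^ i * (on T (4 ^ i * a) : ℝ)) := by
    intro A F y hy hg hA hgn hon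
    have h1 := cc_th i hi A F y hy hA
    rw [hg, pp, if_pos hi, hgn, hon]
    obtain ⟨w, hw⟩ : ∃ w : ℝ, w = (4 ^ i * y) ^ (-(7 / 10 : ℝ)) := ⟨_, rfl⟩
    rw [← hw] at h1 ⊢
    push_cast
    have e1 : ((cc i : ℝ) * (A * pv T (nxt i a)) / Un T a) * w * (lv T (nxt i a) : ℝ) =
        ((cc i : ℝ) * A * w) * ((pv T (nxt i a) : ℝ) * lv T (nxt i a) / (Un T a : ℝ)) := by
      ring
    rw [e1]
    calc ((cc i : ℝ) * A * w) * ((pv T (nxt i a) : ℝ) * lv T (nxt i a) / (Un T a : ℝ))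
        ≤ (2 ^ 28 * (gan ^ i * F)) * ((pv T (nxt i a) : ℝ) * lv T (nxt i a) / (Un T a : ℝ)) :=
          mul_le_mul_of_nonneg_right h1 (by positivity)
      _ = 2 ^ 28 / (Un T a : ℝ) * (gan ^ i * (F * ((pv T (nxt i a) : ℝ) * lv T (nxt i a)))) := by
          ring
  rcases gn_nxt (T := T) i a with h1 | h1 | h1
  · have h2 : on T (4 ^ i * a) = 0 := by rw [on, if_neg h1.2.1, if_neg h1.2.2]
    rw [pp, if_pos hi, h1.1, h2]
    simp
  · exact main 12628 10826233031 (4 / 3) (by norm_num) h1.2.2.2 (by exact_mod_cast m43) h1.2.1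
      ((on_nxt i a).1 h1.1)
  · exact main 23647 32933648501 (2 / 3) (by norm_num) h1.2.2.2 (by exact_mod_cast m23) h1.2.1
      ((on_nxt i a).2 h1.1)

theorem sum_th (h : AG T) (a : ℕ) (ha : a % 3 = 2) :
    ∑ i ∈ range 7, pp T i a * gro i a ^ (-(7 / 10 : ℝ)) * (lv T (nxt i a) : ℝ) ≤
      2 ^ 28 / (Un T a : ℝ) * ht T 7 a := by
  unfold ht
  rw [mul_sum]
  exact sum_le_sum fun i hi => term_th h a ha i (mem_range.1 hi)

theorem good_th {m : ℕ} (h : Good T m) :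
    2 ^ 28 / (Un T m : ℝ) * ht T 7 m +
      2 ^ 28 / (Un T (m + 1594323) : ℝ) * ht T 7 (m + 1594323) +
      2 ^ 28 / (Un T (m + 2 * 1594323) : ℝ) * ht T 7 (m + 2 * 1594323) ≤
      3 * (2847343370000 / (3 * 2 ^ 40)) * (lv T m : ℝ) := by
  obtain ⟨H0, H1, H2, a0, a1, a2, h1⟩ := h.th
  have h2 : ((H0 * 2 ^ 68 : ℕ) : ℝ) / ((Un T m : ℕ) : ℝ) +
      (((H1 * 2 ^ 68 : ℕ) : ℝ) / ((Un T (m + 1594323) : ℕ) : ℝ) +
      ((H2 * 2 ^ 68 : ℕ) : ℝ) / ((Un T (m + 2 * 1594323) : ℕ) : ℝ)) ≤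
      2847343370000 * (lv T m : ℝ) := by
    refine (add_le_add (real_div_le _ _) (add_le_add (real_div_le _ _) (real_div_le _ _))).trans ?_
    exact_mod_cast h1
  simp only [Nat.cast_mul, Nat.cast_pow, Nat.cast_ofNat] at h2
  have e : (2 : ℝ) ^ 68 = 2 ^ 28 * 2 ^ 40 := by norm_num
  rw [e] at h2
  have hb : (0 : ℝ) ≤ 2 ^ 28 := pow_nonneg (by norm_num) _
  revert h2 hb
  generalize (2 : ℝ) ^ 28 = b
  intro h2 hb
  have h3 : (0 : ℝ) < 2 ^ 40 := by norm_num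
  refine le_of_mul_le_mul_right ?_ h3
  calc _ ≤ (b / (Un T m : ℝ) * H0 + b / (Un T (m + 1594323) : ℝ) * H1 +
      b / (Un T (m + 2 * 1594323) : ℝ) * H2) * 2 ^ 40 := by gcongr
    _ = H0 * (b * 2 ^ 40) / (Un T m : ℝ) +
      (H1 * (b * 2 ^ 40) / (Un T (m + 1594323) : ℝ) +
      H2 * (b * 2 ^ 40) / (Un T (m + 2 * 1594323) : ℝ)) := by ring
    _ ≤ 2847343370000 * (lv T m : ℝ) := h2
    _ = 3 * (2847343370000 / (3 * 2 ^ 40)) * (lv T m : ℝ) * 2 ^ 40 := by ring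

end

end Pool.Agent.helper62.K3
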