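import Pool.Agent.helper62.K3.Crt
import Pool.Agent.helper62.K3.CAll

/-! Project K3X (MP_08f931): the certificate with `N = 13`, `t = 14`, exponent `181 / 200`.
helper62. -/

set_option exponentiation.threshold 3000

namespace Pool.Agent.helper62.K3

open Finset Pool.Agent.helper82.K3X

noncomputable section

variable {T : T3}

theorem sup_hi (h : AG T) : Sup 13 (wq (pp T) 14 (181 / 200)) (hh T)
    (2971628820000 / (3 * 2 ^ 40)) where
  one a := by
    have h1 : (1 : ℝ) ≤ pv T a := by exact_mod_cast h.pv_pos a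
    have h2 : (pv T a : ℝ) ≤ 65536 := by exact_mod_cast (pv_lt T a).le
    exact one_le_pow₀ ((one_le_div (by linarith)).2 h2)
  per a := by
    have : (a + 3 ^ 13) % 1594323 = a % 1594323 := by norm_num
    unfold hh
    rw [pv_congr this]
  sub c hc := by
    obtain ⟨m, hm, hg⟩ := h c hc
    have hm3 : m % 3 = 2 := by omega
    have hP : (1 : ℝ) ≤ pv T m := by exact_mod_cast h.pv_pos m
    have hpc : pv T c = pv T m := pv_congr hm.symm
    have e13 : (3 : ℕ) ^ 13 = 1594323 := by norm_num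
    have h1 : ∑ l ∈ range 3, ∑ i ∈ range 7, wq (pp T) 14 (181 / 200) i (c + l * 3 ^ 13) *
        hh T (nxt i (c + l * 3 ^ 13)) ≤
        ∑ l ∈ range 3, 65536 ^ 14 * ((2 ^ 62) ^ 14 / (Un T (c + l * 3 ^ 13) : ℝ) ^ 14) :=
      sum_le_sum fun l _ => sum_hi h _ (by rw [e13]; omega)
    refine h1.trans ?_
    rw [perm3 (fun a => 65536 ^ 14 * ((2 ^ 62) ^ 14 / (Un T a : ℝ) ^ 14))
      (fun a b hab => by rw [Un_congr T hab]) c m hm]
    have h2 := good_hi hg
    have h3 : hh T c = 65536 ^ 14 / (pv T m : ℝ) ^ 14 := by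
      unfold hh; rw [hpc, div_pow]
    rw [h3]
    have h4 : (0 : ℝ) < (pv T m : ℝ) ^ 14 := by positivity
    refine le_of_mul_le_mul_right ?_ h4
    calc _ = 65536 ^ 14 * ((pv T m : ℝ) ^ 14 * ((2 ^ 62) ^ 14 / (Un T m : ℝ) ^ 14) +
      (pv T m : ℝ) ^ 14 * ((2 ^ 62) ^ 14 / (Un T (m + 1594323) : ℝ) ^ 14) +
      (pv T m : ℝ) ^ 14 * ((2 ^ 62) ^ 14 / (Un T (m + 2 * 1594323) : ℝ) ^ 14)) := by
          generalize ((2 : ℝ) ^ 62) ^ 14 = b
          generalize (65536 : ℝ) ^ 14 = b'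
          ring
      _ ≤ 65536 ^ 14 * (3 * (2971628820000 / (3 * 2 ^ 40))) :=
        mul_le_mul_of_nonneg_left h2 (pow_nonneg (by norm_num) _)
      _ = 3 * (2971628820000 / (3 * 2 ^ 40)) * (65536 ^ 14 / (pv T m : ℝ) ^ 14) *
          (pv T m : ℝ) ^ 14 := by
          generalize (65536 : ℝ) ^ 14 = b'
          field_simp

theorem sup_lo (h : AG T) : Sup 13 (wq (pp T) 14 (17 / 100)) (fun a => (ev T a : ℝ))
    (1325288500000 / (3 * 2 ^ 40)) where
  one a := by exact_mod_cast ev_pos a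
  per a := by
    have : (a + 3 ^ 13) % 1594323 = a % 1594323 := by norm_num
    show (ev T (a + 3 ^ 13) : ℝ) = ev T a
    rw [ev_congr this]
  sub c hc := by
    obtain ⟨m, hm, hg⟩ := h c hc
    have hm3 : m % 3 = 2 := by omega
    have hpc : ev T c = ev T m := ev_congr hm.symm
    have e13 : (3 : ℕ) ^ 13 = 1594323 := by norm_num
    have h1 : ∑ l ∈ range 3, ∑ i ∈ range 7, wq (pp T) 14 (17 / 100) i (c + l * 3 ^ 13) *
        (ev T (nxt i (c + l * 3 ^ 13)) : ℝ) ≤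
        ∑ l ∈ range 3, 2 ^ 910 / (Un T (c + l * 3 ^ 13) : ℝ) ^ 15 * hs T 7 (c + l * 3 ^ 13) :=
      sum_le_sum fun l _ => sum_lo h _ (by rw [e13]; omega)
    refine h1.trans ?_
    rw [perm3 (fun a => 2 ^ 910 / (Un T a : ℝ) ^ 15 * hs T 7 a)
      (fun a b hab => by rw [Un_congr T hab, hs_congr T hab]) c m hm, hpc]
    exact good_lo hg

theorem sup_th (h : AG T) : Sup 13 (fun i a => pp T i a * gro i a ^ (-(7 / 10 : ℝ)))
    (fun a => (lv T a : ℝ)) (2847343370000 / (3 * 2 ^ 40)) where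
  one a := by exact_mod_cast lv_pos a
  per a := by
    have : (a + 3 ^ 13) % 1594323 = a % 1594323 := by norm_num
    show (lv T (a + 3 ^ 13) : ℝ) = lv T a
    rw [lv_congr this]
  sub c hc := by
    obtain ⟨m, hm, hg⟩ := h c hc
    have hm3 : m % 3 = 2 := by omega
    have hpc : lv T c = lv T m := lv_congr hm.symm
    have e13 : (3 : ℕ) ^ 13 = 1594323 := by norm_num
    have h1 : ∑ l ∈ range 3, ∑ i ∈ range 7, pp T i (c + l * 3 ^ 13) *
        gro i (c + l * 3 ^ 13) ^ (-(7 / 10 : ℝ)) * (lv T (nxt i (c + l * 3 ^ 13)) : ℝ) ≤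
        ∑ l ∈ range 3, 2 ^ 28 / (Un T (c + l * 3 ^ 13) : ℝ) * ht T 7 (c + l * 3 ^ 13) :=
      sum_le_sum fun l _ => sum_th h _ (by rw [e13]; omega)
    refine h1.trans ?_
    rw [perm3 (fun a => 2 ^ 28 / (Un T a : ℝ) * ht T 7 a)
      (fun a b hab => by rw [Un_congr T hab, ht_congr T hab]) c m hm, hpc]
    exact good_th hg

theorem lt_rp (a b : ℕ) (hb : 0 < b) (y : ℝ) (h : y ^ b < ((3 : ℝ) ^ a)⁻¹) :
    y < (3 : ℝ) ^ (-((a : ℝ) / b)) := by
  have h1 : ((3 : ℝ) ^ (-((a : ℝ) / b))) ^ b = ((3 : ℝ) ^ a)⁻¹ := by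
    rw [← Real.rpow_natCast, ← Real.rpow_mul (by norm_num)]
    have : -((a : ℝ) / b) * b = -(a : ℝ) := by
      rw [neg_mul, div_mul_cancel₀ _ (by positivity)]
    rw [this, Real.rpow_neg (by norm_num), Real.rpow_natCast]
  rw [← h1] at h
  exact lt_of_pow_lt_pow_left₀ b (by positivity) h

theorem cert13 {e : ℕ} (h : CK T 531441 2 e) :
    Cert 13 14 (17 / 100) (181 / 200) (1325288500000 / (3 * 2 ^ 40))
      (2971628820000 / (3 * 2 ^ 40)) (pp T) where
  N1 := by norm_num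
  wt := pp_wt
  sum := pp_sum (AG.of h)
  le := pp_le (AG.of h)
  t1 := by norm_num
  slo0 := by norm_num
  slohi := by norm_num
  shi1 := by norm_num
  llo0 := by norm_num
  lhi0 := by norm_num
  lo := ⟨_, sup_lo (AG.of h)⟩
  hi := ⟨_, sup_hi (AG.of h)⟩
  llo1 := by
    have h1 := lt_rp 83 100 (by norm_num) (1325288500000 / (3 * 2 ^ 40)) (by norm_num)
    push_cast at h1
    have e1 : (-(1 - 17 / 100) : ℝ) = -(83 / 100) := by norm_num
    rw [e1]
    exact h1
  lhi1 := by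
    have h1 := lt_rp 19 200 (by norm_num) (2971628820000 / (3 * 2 ^ 40)) (by norm_num)
    push_cast at h1
    have e1 : (-(1 - 181 / 200) : ℝ) = -(19 / 200) := by norm_num
    rw [e1]
    exact h1
  init := by
    have h0 : (1 : ℝ) + ((14 : ℕ) : ℝ) * (17 / 100) = ((169 : ℕ) : ℝ) / ((50 : ℕ) : ℝ) := by
      norm_num
    rw [h0]
    have h1 := rp' (64 / 3) (by norm_num) 169 50 (by norm_num) (2 ^ 15 - 1) (by norm_num)
      (by norm_num)
    refine h1.trans_lt (by norm_num)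

theorem big_ineq : (2847343370000 : ℕ) ^ 1800 * 3 ^ 241 < (3 * 2 ^ 40) ^ 1800 := by
  decide +kernel

theorem certL13 {e : ℕ} (h : CK T 531441 2 e) :
    CertL 13 (181 / 200) (7 / 10) (2847343370000 / (3 * 2 ^ 40)) 18 (pp T) where
  th0 := by norm_num
  lth0 := by norm_num
  K00 := by norm_num
  sup := ⟨_, sup_th (AG.of h)⟩
  lt := by
    have h0 : (2847343370000 / (3 * 2 ^ 40) : ℝ) ^ 1800 < ((3 : ℝ) ^ 241)⁻¹ := by
      have h1 : ((2847343370000 : ℕ) : ℝ) ^ 1800 * 3 ^ 241 < (3 * 2 ^ 40) ^ 1800 := by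
        exact_mod_cast big_ineq
      rw [div_pow, lt_inv_comm₀ (by positivity) (by positivity), inv_div,
        lt_div_iff₀ (by positivity), mul_comm]
      exact_mod_cast h1
    have h1 := lt_rp 241 1800 (by norm_num) (2847343370000 / (3 * 2 ^ 40)) h0
    have h2 : (0 : ℝ) < 3 ^ ((7 / 10 : ℝ) / ((18 : ℕ) : ℝ)) := by positivity
    have h3 := mul_lt_mul_of_pos_right h1 h2
    refine h3.trans_le (le_of_eq ?_)
    rw [← Real.rpow_add (by norm_num)]
    congr 1
    push_cast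
    norm_num

end

end Pool.Agent.helper62.K3

namespace Pool.Agent.helper82.K3X

/-- The certificate: `N = 13`, `t = 14`, exponents `17 / 100` and `181 / 200`. -/
theorem crt13L : ∃ p, Cert 13 14 (17 / 100) (181 / 200) (1325288500000 / (3 * 2 ^ 40))
    (2971628820000 / (3 * 2 ^ 40)) p ∧
    CertL 13 (181 / 200) (7 / 10) (2847343370000 / (3 * 2 ^ 40)) 18 p :=
  ⟨_, Pool.Agent.helper62.K3.cert13 Pool.Agent.helper62.K3.Chk.all,
    Pool.Agent.helper62.K3.certL13 Pool.Agent.helper62.K3.Chk.all⟩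

/-- The certificate: `N = 13`, `t = 14`, exponents `17 / 100` and `181 / 200`. -/
theorem crt13 : ∃ p, Cert 13 14 (17 / 100) (181 / 200) (1325288500000 / (3 * 2 ^ 40))
    (2971628820000 / (3 * 2 ^ 40)) p :=
  ⟨_, Pool.Agent.helper62.K3.cert13 Pool.Agent.helper62.K3.Chk.all⟩

end Pool.Agent.helper82.K3X
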