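import Pool.Agent.helper62.K3.D0
import Pool.Agent.helper62.K3.D1
import Pool.Agent.helper62.K3.D2
import Pool.Agent.helper62.K3.D3
import Pool.Agent.helper62.K3.D4
import Pool.Agent.helper62.K3.D5
import Pool.Agent.helper62.K3.D6
import Pool.Agent.helper62.K3.D7
import Pool.Agent.helper62.K3.D8

/-! Project K3X (MP_08f931): the table, the tree (generated by a program): for each class modulo 3 ^ 13
16 bits of the weight, 8 and 16 bits for the two auxiliary functions.  helper62. -/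

set_option maxRecDepth 100000

namespace Pool.Agent.helper62.K3.Dat

open Pool.Agent.helper62.K3

noncomputable section

def d2_0 : T3 := .nd d3_0 d3_9 d3_18

def d2_1 : T3 := .nd d3_1 d3_10 d3_19

def d2_2 : T3 := .nd d3_2 d3_11 d3_20

def d2_3 : T3 := .nd d3_3 d3_12 d3_21

def d2_4 : T3 := .nd d3_4 d3_13 d3_22

def d2_5 : T3 := .nd d3_5 d3_14 d3_23

def d2_6 : T3 := .nd d3_6 d3_15 d3_24

def d2_7 : T3 := .nd d3_7 d3_16 d3_25

def d2_8 : T3 := .nd d3_8 d3_17 d3_26

def d1_0 : T3 := .nd d2_0 d2_3 d2_6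

def d1_1 : T3 := .nd d2_1 d2_4 d2_7

def d1_2 : T3 := .nd d2_2 d2_5 d2_8

def d0_0 : T3 := .nd d1_0 d1_1 d1_2

end

end Pool.Agent.helper62.K3.Dat
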