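import Pool.Agent.helper62.K3.Cov
import Pool.Agent.helper82.K3X.Defs

/-! Project K3X (MP_08f931): from the checked table to the certificate. helper62. -/

set_option exponentiation.threshold 3000

namespace Pool.Agent.helper62.K3

open Finset Pool.Agent.helper82.K3X

noncomputable section

/-! ### numerical facts -/

theorem rp (x : ℝ) (hx : 0 < x) (a b : ℕ) (hb : 0 < b) (y : ℝ)
    (h : y ^ b ≤ x ^ a) : y ≤ x ^ ((a : ℝ) / b) := by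
  have h1 : (x ^ ((a : ℝ) / b)) ^ b = x ^ a := by
    rw [← Real.rpow_natCast, ← Real.rpow_mul hx.le, div_mul_cancel₀ _ (by positivity),
      Real.rpow_natCast]
  rw [← h1] at h
  exact le_of_pow_le_pow_left₀ hb.ne' (by positivity) h

theorem rp' (x : ℝ) (hx : 0 < x) (a b : ℕ) (hb : 0 < b) (y : ℝ) (hy : 0 ≤ y)
    (h : x ^ a ≤ y ^ b) : x ^ ((a : ℝ) / b) ≤ y := by
  have h1 : (x ^ ((a : ℝ) / b)) ^ b = x ^ a := by
    rw [← Real.rpow_natCast, ← Real.rpow_mul hx.le, div_mul_cancel₀ _ (by positivity),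
      Real.rpow_natCast]
  rw [← h1] at h
  exact le_of_pow_le_pow_left₀ hb.ne' hy h

theorem n4 : (73 : ℝ) * 4 ^ ((181 : ℝ) / 200) ≤ 256 := by
  have h := rp' 4 (by norm_num) 181 200 (by norm_num) (256 / 73) (by norm_num) (by norm_num)
  push_cast at h
  linarith

theorem n43 : (12628 : ℝ) * (4 / 3) ^ ((181 : ℝ) / 200) ≤ 2 ^ 14 := by
  have h := rp' (4 / 3) (by norm_num) 181 200 (by norm_num) (2 ^ 14 / 12628) (by norm_num)
    (by norm_num)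
  push_cast at h
  linarith

theorem n23 : (23647 : ℝ) * (2 / 3) ^ ((181 : ℝ) / 200) ≤ 2 ^ 14 := by
  have h := rp' (2 / 3) (by norm_num) 181 200 (by norm_num) (2 ^ 14 / 23647) (by norm_num)
    (by norm_num)
  push_cast at h
  linarith

theorem l4 : (73 / 256 : ℝ) ^ 15 * 4 ^ ((119 : ℝ) / 50) ≤ gam := by
  have h := rp' 4 (by norm_num) 119 50 (by norm_num) (209385180808 / 2 ^ 60 * (256 / 73) ^ 15)
    (by norm_num) (by norm_num)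
  push_cast at h
  unfold gam
  calc (73 / 256 : ℝ) ^ 15 * 4 ^ ((119 : ℝ) / 50)
      ≤ (73 / 256 : ℝ) ^ 15 * (209385180808 / 2 ^ 60 * (256 / 73) ^ 15) :=
        mul_le_mul_of_nonneg_left h (by positivity)
    _ = 209385180808 / 2 ^ 60 := by norm_num

theorem l43 : (12628 : ℝ) ^ 15 * (4 / 3) ^ ((119 : ℝ) / 50) * 2 ^ 20 ≤ 2 ^ 210 * 41848 := by
  have h := rp' (4 / 3) (by norm_num) 119 50 (by norm_num) (2 ^ 210 * 41848 / 2 ^ 20 / 12628 ^ 15)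
    (by norm_num) (by norm_num)
  push_cast at h
  calc (12628 : ℝ) ^ 15 * (4 / 3) ^ ((119 : ℝ) / 50) * 2 ^ 20
      ≤ (12628 : ℝ) ^ 15 * (2 ^ 210 * 41848 / 2 ^ 20 / 12628 ^ 15) * 2 ^ 20 := by
        gcongr
    _ = 2 ^ 210 * 41848 := by norm_num

theorem l23 : (23647 : ℝ) ^ 15 * (2 / 3) ^ ((119 : ℝ) / 50) * 2 ^ 20 ≤ 2 ^ 210 * 98139626 := by
  have h := rp' (2 / 3) (by norm_num) 119 50 (by norm_num)
    (2 ^ 210 * 98139626 / 2 ^ 20 / 23647 ^ 15) (by norm_num) (by norm_num)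
  push_cast at h
  calc (23647 : ℝ) ^ 15 * (2 / 3) ^ ((119 : ℝ) / 50) * 2 ^ 20
      ≤ (23647 : ℝ) ^ 15 * (2 ^ 210 * 98139626 / 2 ^ 20 / 23647 ^ 15) * 2 ^ 20 := by
        gcongr
    _ = 2 ^ 210 * 98139626 := by norm_num

theorem m4 : (73 / 256 : ℝ) * (4 : ℝ) ^ (-(7 / 10 : ℝ)) ≤ gan := by
  have h := rp' (1 / 4) (by norm_num) 7 10 (by norm_num) (124577795295473175 / 2 ^ 60 * (256 / 73))
    (by norm_num) (by norm_num)
  push_cast at h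
  have e : (4 : ℝ) ^ (-(7 / 10 : ℝ)) = (1 / 4) ^ ((7 : ℝ) / 10) := by
    rw [Real.rpow_neg (by norm_num), ← Real.inv_rpow (by norm_num)]
    norm_num
  rw [e]
  unfold gan
  calc (73 / 256 : ℝ) * (1 / 4) ^ ((7 : ℝ) / 10)
      ≤ (73 / 256 : ℝ) * (124577795295473175 / 2 ^ 60 * (256 / 73)) :=
        mul_le_mul_of_nonneg_left h (by positivity)
    _ = 124577795295473175 / 2 ^ 60 := by norm_num

theorem m43 : (12628 : ℝ) * (4 / 3) ^ (-(7 / 10 : ℝ)) * 2 ^ 20 ≤ 10826233031 := by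
  have h := rp' (3 / 4) (by norm_num) 7 10 (by norm_num) (10826233031 / 2 ^ 20 / 12628)
    (by norm_num) (by norm_num)
  push_cast at h
  have e : (4 / 3 : ℝ) ^ (-(7 / 10 : ℝ)) = (3 / 4) ^ ((7 : ℝ) / 10) := by
    rw [Real.rpow_neg (by norm_num), ← Real.inv_rpow (by norm_num)]
    norm_num
  rw [e]
  calc (12628 : ℝ) * (3 / 4) ^ ((7 : ℝ) / 10) * 2 ^ 20
      ≤ 12628 * (10826233031 / 2 ^ 20 / 12628) * 2 ^ 20 := by gcongr
    _ = 10826233031 := by norm_num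

theorem m23 : (23647 : ℝ) * (2 / 3) ^ (-(7 / 10 : ℝ)) * 2 ^ 20 ≤ 32933648501 := by
  have h := rp' (3 / 2) (by norm_num) 7 10 (by norm_num) (32933648501 / 2 ^ 20 / 23647)
    (by norm_num) (by norm_num)
  push_cast at h
  have e : (2 / 3 : ℝ) ^ (-(7 / 10 : ℝ)) = (3 / 2) ^ ((7 : ℝ) / 10) := by
    rw [Real.rpow_neg (by norm_num), ← Real.inv_rpow (by norm_num)]
    norm_num
  rw [e]
  calc (23647 : ℝ) * (3 / 2) ^ ((7 : ℝ) / 10) * 2 ^ 20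
      ≤ 23647 * (32933648501 / 2 ^ 20 / 23647) * 2 ^ 20 := by gcongr
    _ = 32933648501 := by norm_num

/-! ### the weights -/

/-- the exponent in the form used below -/
theorem gro_pow (g s : ℝ) (hg : 0 ≤ g) (n : ℕ) : g ^ ((n : ℝ) * s) = (g ^ s) ^ n := by
  rw [mul_comm, Real.rpow_mul hg, Real.rpow_natCast]

theorem four_pow_rpow (i : ℕ) (y s : ℝ) (hy : 0 ≤ y) :
    ((4 : ℝ) ^ i * y) ^ s = (4 ^ s) ^ i * y ^ s := by
  rw [Real.mul_rpow (by positivity) hy]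
  congr 1
  rw [← Real.rpow_natCast, ← Real.rpow_natCast, ← Real.rpow_mul (by norm_num),
    ← Real.rpow_mul (by norm_num), mul_comm]

/-- the transition weights -/
def pp (T : T3) (i a : ℕ) : ℝ :=
  if i < 7 then ((cc i * gn T (4 ^ i * a) : ℕ) : ℝ) / (Un T a : ℝ) else 0

theorem cc_hi (i : ℕ) (hi : i < 7) (A : ℕ) (y : ℝ) (hy : 0 ≤ y)
    (h : (A : ℝ) * y ^ ((181 : ℝ) / 200) ≤ 2 ^ 14) :
    (cc i : ℝ) * A * (4 ^ i * y) ^ ((181 : ℝ) / 200) ≤ 2 ^ 62 := by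
  rw [four_pow_rpow i y _ hy]
  have h1 : ((73 : ℝ) * 4 ^ ((181 : ℝ) / 200)) ^ i ≤ 256 ^ i :=
    pow_le_pow_left₀ (by positivity) n4 i
  rw [mul_pow] at h1
  have h2 : (256 : ℝ) ^ (6 - i) * 256 ^ i = 2 ^ 48 := by
    rw [← pow_add]
    have : 6 - i + i = 6 := by omega
    rw [this]; norm_num
  unfold cc
  push_cast
  calc (73 : ℝ) ^ i * 256 ^ (6 - i) * A * ((4 ^ ((181 : ℝ) / 200)) ^ i * y ^ ((181 : ℝ) / 200))
      = 256 ^ (6 - i) * (73 ^ i * (4 ^ ((181 : ℝ) / 200)) ^ i) *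
          (A * y ^ ((181 : ℝ) / 200)) := by ring
    _ ≤ 256 ^ (6 - i) * 256 ^ i * 2 ^ 14 := by gcongr
    _ = 2 ^ 62 := by rw [h2]; norm_num

theorem cc_lo (i : ℕ) (hi : i < 7) (A E : ℕ) (y : ℝ) (hy : 0 ≤ y)
    (h : (A : ℝ) ^ 15 * y ^ ((119 : ℝ) / 50) * 2 ^ 20 ≤ 2 ^ 210 * E) :
    ((cc i : ℝ) * A) ^ 15 * (4 ^ i * y) ^ ((119 : ℝ) / 50) * 2 ^ 20 ≤
      2 ^ 930 * (gam ^ i * E) := by
  rw [four_pow_rpow i y _ hy]
  have h0 := l4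
  obtain ⟨q, hq⟩ : ∃ q : ℝ, q = 73 / 256 := ⟨_, rfl⟩
  rw [← hq] at h0
  have hq0 : 0 ≤ q := by rw [hq]; norm_num
  have h1 : (q ^ 15 * 4 ^ ((119 : ℝ) / 50)) ^ i ≤ gam ^ i :=
    pow_le_pow_left₀ (by positivity) h0 i
  rw [mul_pow] at h1
  have h2 : (cc i : ℝ) = q ^ i * 256 ^ 6 := by
    unfold cc
    push_cast
    have : (256 : ℝ) ^ 6 = 256 ^ (6 - i) * 256 ^ i := by
      rw [← pow_add]; congr 1; omega
    rw [this, hq, div_pow]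
    field_simp
  have h3 := gam_nn
  obtain ⟨r, hr⟩ : ∃ r : ℝ, r = (4 : ℝ) ^ ((119 : ℝ) / 50) := ⟨_, rfl⟩
  obtain ⟨w, hw⟩ : ∃ w : ℝ, w = y ^ ((119 : ℝ) / 50) := ⟨_, rfl⟩
  rw [← hr] at h1 ⊢
  rw [← hw] at h ⊢
  have e1 : ((cc i : ℝ) * A) ^ 15 * (r ^ i * w) * 2 ^ 20 =
      256 ^ 90 * ((q ^ 15) ^ i * r ^ i) * ((A : ℝ) ^ 15 * w * 2 ^ 20) := by
    rw [h2]
    have e2 : (256 : ℝ) ^ 90 = (256 ^ 6) ^ 15 := by rw [← pow_mul]
    rw [e2]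
    generalize (256 : ℝ) ^ 6 = b
    ring
  rw [e1]
  have e3 : (2 : ℝ) ^ 930 * (gam ^ i * E) = 256 ^ 90 * gam ^ i * (2 ^ 210 * E) := by
    have e4 : ∀ x : ℝ, x ^ 930 = (x ^ 8) ^ 90 * x ^ 210 := fun x => by rw [← pow_mul, ← pow_add]
    have e5 : (2 : ℝ) ^ 8 = 256 := by norm_num
    rw [e4, e5]
    generalize (2 : ℝ) ^ 210 = b
    generalize (256 : ℝ) ^ 90 = b'
    ring
  rw [e3]
  have h5 : (0 : ℝ) ≤ (A : ℝ) ^ 15 * w * 2 ^ 20 := by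
    have : 0 ≤ w := by rw [hw]; positivity
    positivity
  have hb : (0 : ℝ) ≤ 256 ^ 90 := pow_nonneg (by norm_num) _
  revert hb
  generalize (256 : ℝ) ^ 90 = b
  intro hb
  have h6 : b * ((q ^ 15) ^ i * r ^ i) ≤ b * gam ^ i := mul_le_mul_of_nonneg_left h1 hb
  exact (mul_le_mul_of_nonneg_right h6 h5).trans
    (mul_le_mul_of_nonneg_left h (mul_nonneg hb (pow_nonneg h3 _)))

theorem cc_th (i : ℕ) (hi : i < 7) (A F : ℕ) (y : ℝ) (hy : 0 < y)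
    (h : (A : ℝ) * y ^ (-(7 / 10 : ℝ)) * 2 ^ 20 ≤ F) :
    (cc i : ℝ) * A * (4 ^ i * y) ^ (-(7 / 10 : ℝ)) ≤ 2 ^ 28 * (gan ^ i * F) := by
  rw [four_pow_rpow i y _ hy.le]
  have h1 : ((73 / 256 : ℝ) * 4 ^ (-(7 / 10 : ℝ))) ^ i ≤ gan ^ i :=
    pow_le_pow_left₀ (by positivity) m4 i
  rw [mul_pow] at h1
  have h2 : (cc i : ℝ) = (73 / 256) ^ i * 256 ^ 6 := by
    unfold cc
    push_cast
    have : (256 : ℝ) ^ 6 = 256 ^ (6 - i) * 256 ^ i := by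
      rw [← pow_add]; congr 1; omega
    rw [this, div_pow]
    field_simp
  have h3 := gan_nn
  have hw0 : 0 ≤ y ^ (-(7 / 10 : ℝ)) := by positivity
  calc (cc i : ℝ) * A * ((4 ^ (-(7 / 10 : ℝ))) ^ i * y ^ (-(7 / 10 : ℝ)))
      = 2 ^ 28 * (((73 / 256 : ℝ) ^ i * (4 ^ (-(7 / 10 : ℝ))) ^ i) *
          (A * y ^ (-(7 / 10 : ℝ)) * 2 ^ 20)) := by rw [h2]; ring
    _ ≤ 2 ^ 28 * (gan ^ i * F) := by gcongr

end

end Pool.Agent.helper62.K3
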