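import Pool.Agent.helper62.K3.Tree

/-! Project K3X (MP_08f931): the checker (definitions). helper62. -/

namespace Pool.Agent.helper62.K3

noncomputable section

/-- Entry `d` of the triple with number `l`. -/
def ent (T : T3) (l d : ℕ) : ℕ :=
  Nat.land (Nat.shiftRight (T.get l) (Nat.add (Nat.mul 120 (Nat.div l 729)) (Nat.mul 40 d)))
    1099511627775

/-- The number with code `e`. -/
def hv (e : ℕ) : ℕ := Nat.shiftLeft (Nat.add 2 (Nat.mod e 2)) (Nat.div e 2)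

/-- The number with code `e` (long codes). -/
def hw (e : ℕ) : ℕ := Nat.shiftLeft (Nat.add 2048 (Nat.mod e 2048)) (Nat.div e 2048)

/-- An upper bound for the product with the decay factor. -/
def dec (g H : ℕ) : ℕ := Nat.add (Nat.shiftRight (Nat.mul g H) 60) 1

def inc (E z H : ℕ) : ℕ :=
  Nat.add (Nat.mul E (Nat.mul (Nat.pow (Nat.land z 65535) 15)
    (hv (Nat.land (Nat.shiftRight z 16) 255)))) (dec 209385180808 H)

def inc3 (E z G : ℕ) : ℕ :=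
  Nat.add (Nat.mul E (Nat.mul (Nat.land z 65535) (hw (Nat.shiftRight z 24))))
    (dec 124577795295473175 G)

def reg0 (R : ℕ) : ℕ := Nat.land (Nat.shiftLeft R 240) (2 ^ 1680 - 1)

def reg1 (A z0 z1 z2 R : ℕ) : ℕ :=
  Nat.land (Nat.add (Nat.shiftLeft R 240) (Nat.mul A (Nat.add (Nat.land z0 65535)
    (Nat.add (Nat.shiftLeft (Nat.land z1 65535) 80) (Nat.shiftLeft (Nat.land z2 65535) 160)))))
    (2 ^ 1680 - 1)

def stp1 (T : T3) (A E F e l d : ℕ) (k : ℕ → ℕ → ℕ → ℕ → ℕ → ℕ → ℕ → Bool)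
    (R H0 H1 H2 G0 G1 G2 : ℕ) : Bool :=
  (fun z0 z1 z2 : ℕ => k (reg1 A z0 z1 z2 R) (inc E z0 H0) (inc E z1 H1) (inc E z2 H2)
    (inc3 F z0 G0) (inc3 F z1 G1) (inc3 F z2 G2))
    (ent T l d) (ent T l (Nat.mod (Nat.add d e) 3)) (ent T l (Nat.mod (Nat.add d (Nat.mul 2 e)) 3))

def stp (T : T3) (k : ℕ → ℕ → ℕ → ℕ → ℕ → ℕ → ℕ → Bool) (m R H0 H1 H2 G0 G1 G2 : ℕ) : Bool :=
  Bool.rec (motive := fun _ => Bool)
    (Bool.rec (motive := fun _ => Bool)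
      ((fun i : ℕ => stp1 T 23647 98139626 32933648501 2 (Nat.mod i 177147) (Nat.div i 177147) k
        R H0 H1 H2 G0 G1 G2)
        (Nat.div (Nat.mod (Nat.div (Nat.mul 2 m) 3) 1594323) 3))
      ((fun i : ℕ => stp1 T 12628 41848 10826233031 1 (Nat.mod i 177147) (Nat.div i 177147) k
        R H0 H1 H2 G0 G1 G2)
        (Nat.div (Nat.mod (Nat.div (Nat.mul 4 m) 3) 1594323) 3))
      (Nat.beq (Nat.mod m 9) 2))
    (k (reg0 R) (dec 209385180808 H0) (dec 209385180808 H1) (dec 209385180808 H2)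
      (dec 124577795295473175 G0) (dec 124577795295473175 G1) (dec 124577795295473175 G2))
    (Nat.beq (Nat.mod m 9) 5)

def cof : ℕ :=
  256 ^ 6 * 2 ^ 1440 + 73 * 256 ^ 5 * 2 ^ 1200 + 73 ^ 2 * 256 ^ 4 * 2 ^ 960 +
    73 ^ 3 * 256 ^ 3 * 2 ^ 720 + 73 ^ 4 * 256 ^ 2 * 2 ^ 480 + 73 ^ 5 * 256 * 2 ^ 240 + 73 ^ 6

def hq (N U : ℕ) : ℕ := Nat.add (Nat.div N (Nat.pow U 14)) 1

def lq (H U : ℕ) : ℕ := Nat.add (Nat.div (Nat.shiftLeft H 950) (Nat.pow U 15)) 1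

def gq (G U : ℕ) : ℕ := Nat.add (Nat.div (Nat.shiftLeft G 68) U) 1

def tst1 (z U0 U1 U2 H0 H1 H2 G0 G1 G2 : ℕ) : Bool :=
  Bool.rec (motive := fun _ => Bool) false
    (Bool.rec (motive := fun _ => Bool) false
      (Bool.rec (motive := fun _ => Bool) false
        ((fun N : ℕ => Nat.ble (Nat.add (hq N U0) (Nat.add (hq N U1) (hq N U2))) 2971628820000)
          (Nat.shiftLeft (Nat.pow (Nat.land z 65535) 14) 908))
        (Nat.ble (Nat.add (lq H0 U0) (Nat.add (lq H1 U1) (lq H2 U2)))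
          (Nat.mul 1325288500000 (hv (Nat.land (Nat.shiftRight z 16) 255)))))
      (Nat.ble (Nat.add (gq G0 U0) (Nat.add (gq G1 U1) (gq G2 U2)))
        (Nat.mul 2847343370000 (hw (Nat.shiftRight z 24)))))
    (Nat.ble 1 (Nat.land z 65535))

def tst (T : T3) (C m R H0 H1 H2 G0 G1 G2 : ℕ) : Bool :=
  (fun i D : ℕ => tst1 (ent T (Nat.mod i 177147) (Nat.div i 177147))
    (Nat.land D (2 ^ 80 - 1)) (Nat.land (Nat.shiftRight D 80) (2 ^ 80 - 1))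
    (Nat.land (Nat.shiftRight D 160) (2 ^ 80 - 1)) H0 H1 H2 G0 G1 G2)
    (Nat.div (Nat.mod m 1594323) 3) (Nat.shiftRight (Nat.mul R C) 1440)

def warm (T : T3) (k : ℕ → ℕ → ℕ → ℕ → ℕ → ℕ → ℕ → ℕ → Bool) (n : ℕ) :
    ℕ → ℕ → ℕ → ℕ → ℕ → ℕ → ℕ → ℕ → Bool :=
  Nat.rec k (fun _ ih m R H0 H1 H2 G0 G1 G2 =>
    stp T (fun R H0 H1 H2 G0 G1 G2 => ih (Nat.mod (Nat.mul m 3587227) 4782969) R H0 H1 H2 G0 G1 G2)
      m R H0 H1 H2 G0 G1 G2) n

def run (T : T3) (C e n : ℕ) : ℕ → ℕ → ℕ → ℕ → ℕ → ℕ → ℕ → ℕ → Bool :=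
  Nat.rec (fun m _ _ _ _ _ _ _ => Nat.beq m e) (fun _ ih m R H0 H1 H2 G0 G1 G2 =>
    stp T (fun R H0 H1 H2 G0 G1 G2 =>
      Bool.rec (motive := fun _ => Bool) false
        (ih (Nat.mod (Nat.mul m 3587227) 4782969) R H0 H1 H2 G0 G1 G2)
        (tst T C m R H0 H1 H2 G0 G1 G2)) m R H0 H1 H2 G0 G1 G2) n

end

end Pool.Agent.helper62.K3
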