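import Pool.Agent.helper62.K3.Run

/-! Project K3X (MP_08f931): soundness of the checker, one step. helper62. -/

namespace Pool.Agent.helper62.K3

open Finset

noncomputable section

/-- The entry with index `i`. -/
def en (T : T3) (i : ℕ) : ℕ := ent T (i % 177147) (i / 177147)

/-- The stored value of the class of `c` modulo `3 ^ 13`. -/
def pv (T : T3) (c : ℕ) : ℕ := en T (c % 1594323 / 3) % 65536

/-- The second stored value of the class of `c` modulo `3 ^ 13`. -/
def ev (T : T3) (c : ℕ) : ℕ := hv (en T (c % 1594323 / 3) / 65536 % 256)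

/-- The third stored value of the class of `c` modulo `3 ^ 13`. -/
def lv (T : T3) (c : ℕ) : ℕ := hw (en T (c % 1594323 / 3) / 16777216)

def gn (T : T3) (b : ℕ) : ℕ :=
  if b % 9 = 2 then 12628 * pv T ((4 * b - 2) / 3) else
    if b % 9 = 8 then 23647 * pv T ((2 * b - 1) / 3) else 0

def om (T : T3) (b : ℕ) : ℕ :=
  if b % 9 = 2 then 41848 * (pv T ((4 * b - 2) / 3) ^ 15 * ev T ((4 * b - 2) / 3)) else
    if b % 9 = 8 then 98139626 * (pv T ((2 * b - 1) / 3) ^ 15 * ev T ((2 * b - 1) / 3)) else 0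

def on (T : T3) (b : ℕ) : ℕ :=
  if b % 9 = 2 then 10826233031 * (pv T ((4 * b - 2) / 3) * lv T ((4 * b - 2) / 3)) else
    if b % 9 = 8 then 32933648501 * (pv T ((2 * b - 1) / 3) * lv T ((2 * b - 1) / 3)) else 0

/-- The packed triple number `i` at `m`. -/
def rr (T : T3) (i m : ℕ) : ℕ :=
  gn T (4 ^ i * m) + (gn T (4 ^ i * (m + 1594323)) * 2 ^ 80 +
    gn T (4 ^ i * (m + 2 * 1594323)) * 2 ^ 160)

/-- The decay factor. -/
def gam : ℝ := 209385180808 / 2 ^ 60

def hs (T : T3) (n a : ℕ) : ℝ := ∑ i ∈ range n, gam ^ i * (om T (4 ^ i * a) : ℝ)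

/-- The decay factor of the third table. -/
def gan : ℝ := 124577795295473175 / 2 ^ 60

def ht (T : T3) (n a : ℕ) : ℝ := ∑ i ∈ range n, gan ^ i * (on T (4 ^ i * a) : ℝ)

def Un (T : T3) (a : ℕ) : ℕ := ∑ i ∈ range 7, 73 ^ i * 256 ^ (6 - i) * gn T (4 ^ i * a)

theorem brec (x y b : Bool) : (Bool.rec (motive := fun _ => Bool) x y b) = bif b then y else x := by
  cases b <;> rfl

theorem dec_eq (g H : ℕ) : dec g H = g * H / 2 ^ 60 + 1 := by
  show (g * H) >>> 60 + 1 = _
  rw [Nat.shiftRight_eq_div_pow]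

theorem dec_ge' (g H : ℕ) : (g : ℝ) / 2 ^ 60 * (H : ℝ) ≤ (dec g H : ℝ) := by
  have h2 : ((g * H : ℕ) : ℝ) / ((2 ^ 60 : ℕ) : ℝ) <
      ((g * H / 2 ^ 60 : ℕ) : ℝ) + 1 := by
    rw [← Nat.floor_div_eq_div (K := ℝ)]
    exact Nat.lt_floor_add_one _
  rw [dec_eq]
  push_cast at h2 ⊢
  have h3 : (g : ℝ) / 2 ^ 60 * H = g * H / 2 ^ 60 := by ring
  rw [h3]
  have h4 : (2 : ℝ) ^ 60 = 1152921504606846976 := by norm_num
  rw [h4]
  exact h2.le

theorem dec_ge (H : ℕ) : gam * (H : ℝ) ≤ (dec 209385180808 H : ℝ) := by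
  have h := dec_ge' 209385180808 H
  push_cast at h
  exact h

theorem den_ge (H : ℕ) : gan * (H : ℝ) ≤ (dec 124577795295473175 H : ℝ) := by
  have h := dec_ge' 124577795295473175 H
  push_cast at h
  exact h

theorem land16 (z : ℕ) : Nat.land z 65535 = z % 65536 :=
  Nat.and_two_pow_sub_one_eq_mod z 16

theorem shr16 (z : ℕ) : Nat.shiftRight z 16 = z / 65536 :=
  Nat.shiftRight_eq_div_pow z 16

theorem land8 (z : ℕ) : Nat.land z 255 = z % 256 :=
  Nat.and_two_pow_sub_one_eq_mod z 8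

theorem shr24 (z : ℕ) : Nat.shiftRight z 24 = z / 16777216 :=
  Nat.shiftRight_eq_div_pow z 24

theorem reg0_eq (R : ℕ) : reg0 R = (R * 2 ^ 240 + 0) % 2 ^ 1680 := by
  have h : reg0 R = (R <<< 240) &&& (2 ^ 1680 - 1) := rfl
  rw [h, Nat.and_two_pow_sub_one_eq_mod, Nat.shiftLeft_eq, add_zero]

theorem reg1_eq (A z0 z1 z2 R : ℕ) : reg1 A z0 z1 z2 R =
    (R * 2 ^ 240 + (A * (z0 % 65536) + (A * (z1 % 65536) * 2 ^ 80 +
      A * (z2 % 65536) * 2 ^ 160))) % 2 ^ 1680 := by
  have h : reg1 A z0 z1 z2 R = (R <<< 240 + A * (Nat.land z0 65535 + ((Nat.land z1 65535) <<< 80 +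
      (Nat.land z2 65535) <<< 160))) &&& (2 ^ 1680 - 1) := rfl
  rw [h, Nat.and_two_pow_sub_one_eq_mod, Nat.shiftLeft_eq, Nat.shiftLeft_eq, Nat.shiftLeft_eq,
    land16, land16, land16]
  congr 1
  ring

theorem inc_eq (E z H : ℕ) :
    inc E z H = E * ((z % 65536) ^ 15 * hv (z / 65536 % 256)) + dec 209385180808 H := by
  have h : inc E z H = E * ((Nat.land z 65535) ^ 15 *
    hv (Nat.land (Nat.shiftRight z 16) 255)) + dec 209385180808 H := rfl
  rw [h, land16, shr16, land8]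

theorem inc3_eq (E z H : ℕ) :
    inc3 E z H = E * ((z % 65536) * hw (z / 16777216)) + dec 124577795295473175 H := by
  have h : inc3 E z H = E * ((Nat.land z 65535) *
    hw (Nat.shiftRight z 24)) + dec 124577795295473175 H := rfl
  rw [h, land16, shr24]

theorem en_a (T : T3) (i j : ℕ) (_hi : i < 531441) (_hj : j < 3) :
    en T ((i + j * 177147) % 531441) = ent T (i % 177147) ((i / 177147 + j) % 3) := by
  unfold en
  have h1 : (i + j * 177147) % 531441 % 177147 = i % 177147 := by omega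
  have h2 : (i + j * 177147) % 531441 / 177147 = (i / 177147 + j) % 3 := by omega
  rw [h1, h2]

theorem ix_one (m j : ℕ) (h : m % 9 = 2) (hj : j < 3) :
    (4 * (m + j * 1594323) - 2) / 3 % 1594323 / 3 =
      (4 * m / 3 % 1594323 / 3 + j * 177147) % 531441 := by
  have : j = 0 ∨ j = 1 ∨ j = 2 := by omega
  rcases this with rfl | rfl | rfl <;> omega

theorem ix_two (m j : ℕ) (h : m % 9 = 8) (hj : j < 3) :
    (2 * (m + j * 1594323) - 1) / 3 % 1594323 / 3 =
      (2 * m / 3 % 1594323 / 3 + (2 * j) % 3 * 177147) % 531441 := by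
  have : j = 0 ∨ j = 1 ∨ j = 2 := by omega
  rcases this with rfl | rfl | rfl <;> omega

theorem gn_one (T : T3) (m j : ℕ) (h : m % 9 = 2) (hj : j < 3) :
    gn T (m + j * 1594323) = 12628 * (ent T (4 * m / 3 % 1594323 / 3 % 177147)
      ((4 * m / 3 % 1594323 / 3 / 177147 + j) % 3) % 65536) := by
  have h9 : (m + j * 1594323) % 9 = 2 := by omega
  rw [gn, if_pos h9, pv, ix_one m j h hj, en_a _ _ _ (by omega) hj]

theorem om_one (T : T3) (m j : ℕ) (h : m % 9 = 2) (hj : j < 3) :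
    om T (m + j * 1594323) = 41848 * ((ent T (4 * m / 3 % 1594323 / 3 % 177147)
      ((4 * m / 3 % 1594323 / 3 / 177147 + j) % 3) % 65536) ^ 15 *
      hv (ent T (4 * m / 3 % 1594323 / 3 % 177147)
      ((4 * m / 3 % 1594323 / 3 / 177147 + j) % 3) / 65536 % 256)) := by
  have h9 : (m + j * 1594323) % 9 = 2 := by omega
  rw [om, if_pos h9, pv, ev, ix_one m j h hj, en_a _ _ _ (by omega) hj]

theorem gn_two (T : T3) (m j : ℕ) (h : m % 9 = 8) (hj : j < 3) :
    gn T (m + j * 1594323) = 23647 * (ent T (2 * m / 3 % 1594323 / 3 % 177147)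
      ((2 * m / 3 % 1594323 / 3 / 177147 + 2 * j) % 3) % 65536) := by
  have h9 : (m + j * 1594323) % 9 = 8 := by omega
  have h2 : (2 * m / 3 % 1594323 / 3 / 177147 + 2 * j) % 3 =
      (2 * m / 3 % 1594323 / 3 / 177147 + (2 * j) % 3) % 3 := by omega
  rw [gn, if_neg (by omega), if_pos h9, pv, ix_two m j h hj, en_a _ _ _ (by omega) (by omega), h2]

theorem om_two (T : T3) (m j : ℕ) (h : m % 9 = 8) (hj : j < 3) :
    om T (m + j * 1594323) = 98139626 * ((ent T (2 * m / 3 % 1594323 / 3 % 177147)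
      ((2 * m / 3 % 1594323 / 3 / 177147 + 2 * j) % 3) % 65536) ^ 15 *
      hv (ent T (2 * m / 3 % 1594323 / 3 % 177147)
      ((2 * m / 3 % 1594323 / 3 / 177147 + 2 * j) % 3) / 65536 % 256)) := by
  have h9 : (m + j * 1594323) % 9 = 8 := by omega
  have h2 : (2 * m / 3 % 1594323 / 3 / 177147 + 2 * j) % 3 =
      (2 * m / 3 % 1594323 / 3 / 177147 + (2 * j) % 3) % 3 := by omega
  rw [om, if_neg (by omega), if_pos h9, pv, ev, ix_two m j h hj, en_a _ _ _ (by omega) (by omega),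
    h2]

theorem on_one (T : T3) (m j : ℕ) (h : m % 9 = 2) (hj : j < 3) :
    on T (m + j * 1594323) = 10826233031 * ((ent T (4 * m / 3 % 1594323 / 3 % 177147)
      ((4 * m / 3 % 1594323 / 3 / 177147 + j) % 3) % 65536) *
      hw (ent T (4 * m / 3 % 1594323 / 3 % 177147)
      ((4 * m / 3 % 1594323 / 3 / 177147 + j) % 3) / 16777216)) := by
  have h9 : (m + j * 1594323) % 9 = 2 := by omega
  rw [on, if_pos h9, pv, lv, ix_one m j h hj, en_a _ _ _ (by omega) hj]

theorem on_two (T : T3) (m j : ℕ) (h : m % 9 = 8) (hj : j < 3) :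
    on T (m + j * 1594323) = 32933648501 * ((ent T (2 * m / 3 % 1594323 / 3 % 177147)
      ((2 * m / 3 % 1594323 / 3 / 177147 + 2 * j) % 3) % 65536) *
      hw (ent T (2 * m / 3 % 1594323 / 3 % 177147)
      ((2 * m / 3 % 1594323 / 3 / 177147 + 2 * j) % 3) / 16777216)) := by
  have h9 : (m + j * 1594323) % 9 = 8 := by omega
  have h2 : (2 * m / 3 % 1594323 / 3 / 177147 + 2 * j) % 3 =
      (2 * m / 3 % 1594323 / 3 / 177147 + (2 * j) % 3) % 3 := by omega
  rw [on, if_neg (by omega), if_pos h9, pv, lv, ix_two m j h hj, en_a _ _ _ (by omega) (by omega),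
    h2]

/-- What one step gives. -/
theorem stp_spec (T : T3) (k : ℕ → ℕ → ℕ → ℕ → ℕ → ℕ → ℕ → Bool) (m R H0 H1 H2 G0 G1 G2 : ℕ)
    (hm : m % 3 = 2) (h : stp T k m R H0 H1 H2 G0 G1 G2 = true) :
    ∃ R' H0' H1' H2' G0' G1' G2' : ℕ, k R' H0' H1' H2' G0' G1' G2' = true ∧
      R' = (R * 2 ^ 240 + rr T 0 m) % 2 ^ 1680 ∧
      (om T m : ℝ) + gam * H0 ≤ H0' ∧ (om T (m + 1594323) : ℝ) + gam * H1 ≤ H1' ∧
      (om T (m + 2 * 1594323) : ℝ) + gam * H2 ≤ H2' ∧
      (on T m : ℝ) + gan * G0 ≤ G0' ∧ (on T (m + 1594323) : ℝ) + gan * G1 ≤ G1' ∧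
      (on T (m + 2 * 1594323) : ℝ) + gan * G2 ≤ G2' := by
  have hc : m % 9 = 5 ∨ m % 9 = 2 ∨ m % 9 = 8 := by omega
  unfold stp at h
  rw [brec, brec] at h
  rcases hc with h5 | h2 | h8
  · have e5 : Nat.beq (Nat.mod m 9) 5 = true := by
      have h5' : Nat.mod m 9 = 5 := h5
      rw [h5']; rfl
    rw [e5, cond_true] at h
    have g0 : ∀ j, gn T (m + j * 1594323) = 0 := fun j => by
      rw [gn, if_neg (by omega), if_neg (by omega)]
    have o0 : ∀ j, om T (m + j * 1594323) = 0 := fun j => by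
      rw [om, if_neg (by omega), if_neg (by omega)]
    have p0 : ∀ j, on T (m + j * 1594323) = 0 := fun j => by
      rw [on, if_neg (by omega), if_neg (by omega)]
    have g00 := g0 0
    have g01 := g0 1
    have g02 := g0 2
    have o00 := o0 0
    have o01 := o0 1
    have o02 := o0 2
    have p00 := p0 0
    have p01 := p0 1
    have p02 := p0 2
    simp only [zero_mul, add_zero, one_mul] at g00 g01 g02 o00 o01 o02 p00 p01 p02
    refine ⟨_, _, _, _, _, _, _, h, ?_, ?_, ?_, ?_, ?_, ?_, ?_⟩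
    · rw [reg0_eq, rr]
      simp only [pow_zero, one_mul, g00, g01, g02, zero_mul, add_zero]
    · rw [o00]; simpa using dec_ge H0
    · rw [o01]; simpa using dec_ge H1
    · rw [o02]; simpa using dec_ge H2
    · rw [p00]; simpa using den_ge G0
    · rw [p01]; simpa using den_ge G1
    · rw [p02]; simpa using den_ge G2
  · have e5 : Nat.beq (Nat.mod m 9) 5 = false := by
      rw [Bool.eq_false_iff]; intro hh; exact absurd (Nat.eq_of_beq_eq_true hh) (by
        show m % 9 ≠ 5; omega)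
    have e2 : Nat.beq (Nat.mod m 9) 2 = true := by
      have h2' : Nat.mod m 9 = 2 := h2
      rw [h2']; rfl
    rw [e5, e2, cond_false, cond_true] at h
    obtain ⟨l, hl⟩ : ∃ l, l = 4 * m / 3 % 1594323 / 3 % 177147 := ⟨_, rfl⟩
    obtain ⟨d, hd'⟩ : ∃ d, d = 4 * m / 3 % 1594323 / 3 / 177147 := ⟨_, rfl⟩
    have hh : stp1 T 12628 41848 10826233031 1 (4 * m / 3 % 1594323 / 3 % 177147)
        (4 * m / 3 % 1594323 / 3 / 177147) k R H0 H1 H2 G0 G1 G2 = true := h
    have hd : d = (d + 0) % 3 := by omega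
    have g00 := gn_one T m 0 h2 (by norm_num)
    have g01 := gn_one T m 1 h2 (by norm_num)
    have g02 := gn_one T m 2 h2 (by norm_num)
    have o00 := om_one T m 0 h2 (by norm_num)
    have o01 := om_one T m 1 h2 (by norm_num)
    have o02 := om_one T m 2 h2 (by norm_num)
    have p00 := on_one T m 0 h2 (by norm_num)
    have p01 := on_one T m 1 h2 (by norm_num)
    have p02 := on_one T m 2 h2 (by norm_num)
    rw [← hl, ← hd'] at g00 g01 g02 o00 o01 o02 p00 p01 p02 hh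
    rw [← hd] at g00 o00 p00
    simp only [zero_mul, add_zero, one_mul] at g00 g01 o00 o01 p00 p01
    have hk : k (reg1 12628 (ent T l d) (ent T l ((d + 1) % 3)) (ent T l ((d + 2 * 1) % 3)) R)
        (inc 41848 (ent T l d) H0) (inc 41848 (ent T l ((d + 1) % 3)) H1)
        (inc 41848 (ent T l ((d + 2 * 1) % 3)) H2)
        (inc3 10826233031 (ent T l d) G0) (inc3 10826233031 (ent T l ((d + 1) % 3)) G1)
        (inc3 10826233031 (ent T l ((d + 2 * 1) % 3)) G2) = true := hh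
    refine ⟨_, _, _, _, _, _, _, hk, ?_, ?_, ?_, ?_, ?_, ?_, ?_⟩
    · rw [reg1_eq, rr]
      simp only [pow_zero, one_mul, mul_one]
      rw [g00, g01, g02]
    · rw [inc_eq, o00]; push_cast; linarith [dec_ge H0]
    · rw [inc_eq, o01]; push_cast; linarith [dec_ge H1]
    · rw [inc_eq, o02]; push_cast; linarith [dec_ge H2]
    · rw [inc3_eq, p00]; push_cast; linarith [den_ge G0]
    · rw [inc3_eq, p01]; push_cast; linarith [den_ge G1]
    · rw [inc3_eq, p02]; push_cast; linarith [den_ge G2]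
  · have e5 : Nat.beq (Nat.mod m 9) 5 = false := by
      rw [Bool.eq_false_iff]; intro hh; exact absurd (Nat.eq_of_beq_eq_true hh) (by
        show m % 9 ≠ 5; omega)
    have e2 : Nat.beq (Nat.mod m 9) 2 = false := by
      rw [Bool.eq_false_iff]; intro hh; exact absurd (Nat.eq_of_beq_eq_true hh) (by
        show m % 9 ≠ 2; omega)
    rw [e5, e2, cond_false, cond_false] at h
    obtain ⟨l, hl⟩ : ∃ l, l = 2 * m / 3 % 1594323 / 3 % 177147 := ⟨_, rfl⟩
    obtain ⟨d, hd'⟩ : ∃ d, d = 2 * m / 3 % 1594323 / 3 / 177147 := ⟨_, rfl⟩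
    have hh : stp1 T 23647 98139626 32933648501 2 (2 * m / 3 % 1594323 / 3 % 177147)
        (2 * m / 3 % 1594323 / 3 / 177147) k R H0 H1 H2 G0 G1 G2 = true := h
    have hd : d = (d + 2 * 0) % 3 := by omega
    have g00 := gn_two T m 0 h8 (by norm_num)
    have g01 := gn_two T m 1 h8 (by norm_num)
    have g02 := gn_two T m 2 h8 (by norm_num)
    have o00 := om_two T m 0 h8 (by norm_num)
    have o01 := om_two T m 1 h8 (by norm_num)
    have o02 := om_two T m 2 h8 (by norm_num)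
    have p00 := on_two T m 0 h8 (by norm_num)
    have p01 := on_two T m 1 h8 (by norm_num)
    have p02 := on_two T m 2 h8 (by norm_num)
    rw [← hl, ← hd'] at g00 g01 g02 o00 o01 o02 p00 p01 p02 hh
    rw [← hd] at g00 o00 p00
    simp only [zero_mul, add_zero, one_mul, mul_one] at g00 g01 o00 o01 p00 p01
    have hk : k (reg1 23647 (ent T l d) (ent T l ((d + 2) % 3)) (ent T l ((d + 2 * 2) % 3)) R)
        (inc 98139626 (ent T l d) H0) (inc 98139626 (ent T l ((d + 2) % 3)) H1)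
        (inc 98139626 (ent T l ((d + 2 * 2) % 3)) H2)
        (inc3 32933648501 (ent T l d) G0) (inc3 32933648501 (ent T l ((d + 2) % 3)) G1)
        (inc3 32933648501 (ent T l ((d + 2 * 2) % 3)) G2) = true := hh
    refine ⟨_, _, _, _, _, _, _, hk, ?_, ?_, ?_, ?_, ?_, ?_, ?_⟩
    · rw [reg1_eq, rr]
      simp only [pow_zero, one_mul]
      rw [g00, g01, g02]
    · rw [inc_eq, o00]; push_cast; linarith [dec_ge H0]
    · rw [inc_eq, o01]; push_cast; linarith [dec_ge H1]
    · rw [inc_eq, o02]; push_cast; linarith [dec_ge H2]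
    · rw [inc3_eq, p00]; push_cast; linarith [den_ge G0]
    · rw [inc3_eq, p01]; push_cast; linarith [den_ge G1]
    · rw [inc3_eq, p02]; push_cast; linarith [den_ge G2]

end

end Pool.Agent.helper62.K3
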