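import Pool.Agent.helper62.K3.Snd1

/-! Project K3X (MP_08f931): soundness of the checker, runs. helper62. -/

set_option exponentiation.threshold 3000

namespace Pool.Agent.helper62.K3

open Finset

noncomputable section

/-! ### periodicity -/

theorem pv_lt (T : T3) (c : ℕ) : pv T c < 65536 := Nat.mod_lt _ (by norm_num)

theorem gn_lt (T : T3) (b : ℕ) : gn T b < 2 ^ 31 := by
  unfold gn
  have h := pv_lt T ((4 * b - 2) / 3)
  have h' := pv_lt T ((2 * b - 1) / 3)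
  split_ifs
  · omega
  · omega
  · norm_num

theorem gn_mod (T : T3) (b : ℕ) : gn T (b % 4782969) = gn T b := by
  unfold gn pv
  have h9 : b % 4782969 % 9 = b % 9 := by omega
  rw [h9]
  split_ifs with h1 h2
  · have h3 : (4 * (b % 4782969) - 2) / 3 % 1594323 = (4 * b - 2) / 3 % 1594323 := by omega
    rw [h3]
  · have h3 : (2 * (b % 4782969) - 1) / 3 % 1594323 = (2 * b - 1) / 3 % 1594323 := by omega
    rw [h3]
  · rfl

theorem om_mod (T : T3) (b : ℕ) : om T (b % 4782969) = om T b := by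
  unfold om pv ev
  have h9 : b % 4782969 % 9 = b % 9 := by omega
  rw [h9]
  split_ifs with h1 h2
  · have h3 : (4 * (b % 4782969) - 2) / 3 % 1594323 = (4 * b - 2) / 3 % 1594323 := by omega
    rw [h3]
  · have h3 : (2 * (b % 4782969) - 1) / 3 % 1594323 = (2 * b - 1) / 3 % 1594323 := by omega
    rw [h3]
  · rfl

theorem on_mod (T : T3) (b : ℕ) : on T (b % 4782969) = on T b := by
  unfold on pv lv
  have h9 : b % 4782969 % 9 = b % 9 := by omega
  rw [h9]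
  split_ifs with h1 h2
  · have h3 : (4 * (b % 4782969) - 2) / 3 % 1594323 = (4 * b - 2) / 3 % 1594323 := by omega
    rw [h3]
  · have h3 : (2 * (b % 4782969) - 1) / 3 % 1594323 = (2 * b - 1) / 3 % 1594323 := by omega
    rw [h3]
  · rfl

theorem on_congr (T : T3) {a b : ℕ} (h : a ≡ b [MOD 4782969]) : on T a = on T b := by
  rw [← on_mod T a, ← on_mod T b, h]

theorem ht_congr (T : T3) {a b : ℕ} (h : a ≡ b [MOD 4782969]) (n : ℕ) : ht T n a = ht T n b := by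
  unfold ht
  refine sum_congr rfl fun i _ => ?_
  rw [on_congr T (h.mul_left (4 ^ i))]

theorem ht_succ (T : T3) (n a : ℕ) : ht T (n + 1) a = on T a + gan * ht T n (4 * a) := by
  unfold ht
  rw [sum_range_succ', mul_sum, add_comm]
  congr 1
  · simp
  · refine sum_congr rfl fun i _ => ?_
    have : 4 ^ (i + 1) * a = 4 ^ i * (4 * a) := by ring
    rw [this]
    ring

theorem gn_congr (T : T3) {a b : ℕ} (h : a ≡ b [MOD 4782969]) : gn T a = gn T b := by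
  rw [← gn_mod T a, ← gn_mod T b, h]

theorem om_congr (T : T3) {a b : ℕ} (h : a ≡ b [MOD 4782969]) : om T a = om T b := by
  rw [← om_mod T a, ← om_mod T b, h]

theorem hs_congr (T : T3) {a b : ℕ} (h : a ≡ b [MOD 4782969]) (n : ℕ) : hs T n a = hs T n b := by
  unfold hs
  refine sum_congr rfl fun i _ => ?_
  rw [om_congr T (h.mul_left (4 ^ i))]

theorem Un_congr (T : T3) {a b : ℕ} (h : a ≡ b [MOD 4782969]) : Un T a = Un T b := by
  unfold Un
  refine sum_congr rfl fun i _ => ?_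
  rw [gn_congr T (h.mul_left (4 ^ i))]

theorem hs_succ (T : T3) (n a : ℕ) : hs T (n + 1) a = om T a + gam * hs T n (4 * a) := by
  unfold hs
  rw [sum_range_succ', mul_sum, add_comm]
  congr 1
  · simp
  · refine sum_congr rfl fun i _ => ?_
    have : 4 ^ (i + 1) * a = 4 ^ i * (4 * a) := by ring
    rw [this]
    ring

/-- the predecessor map -/
def sg (m : ℕ) : ℕ := m * 3587227 % 4782969

theorem four_sg (m : ℕ) : 4 * sg m ≡ m [MOD 4782969] := by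
  unfold sg Nat.ModEq
  omega

theorem four_sg' (m j : ℕ) : 4 * (sg m + j * 1594323) ≡ m + j * 1594323 [MOD 4782969] := by
  have h := four_sg m
  unfold Nat.ModEq at *
  omega

theorem sg_mod3 (m : ℕ) : sg m % 3 = m % 3 := by
  unfold sg
  omega

theorem rr_succ (T : T3) (i m : ℕ) : rr T (i + 1) (sg m) = rr T i m := by
  unfold rr
  have h : ∀ j, 4 ^ (i + 1) * (sg m + j * 1594323) ≡ 4 ^ i * (m + j * 1594323) [MOD 4782969] := by
    intro j
    have : 4 ^ (i + 1) * (sg m + j * 1594323) = 4 ^ i * (4 * (sg m + j * 1594323)) := by ring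
    rw [this]
    exact (four_sg' m j).mul_left _
  have h0 := h 0
  have h1 := h 1
  simp only [zero_mul, add_zero, one_mul] at h0 h1
  rw [gn_congr T h0, gn_congr T h1, gn_congr T (h 2)]

theorem rr_lt (T : T3) (i m : ℕ) : rr T i m < 2 ^ 240 := by
  unfold rr
  have h0 := gn_lt T (4 ^ i * m)
  have h1 := gn_lt T (4 ^ i * (m + 1594323))
  have h2 := gn_lt T (4 ^ i * (m + 2 * 1594323))
  omega

/-! ### the register -/

/-- The value of a register. -/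
def RV (n : ℕ) (f : ℕ → ℕ) : ℕ := ∑ i ∈ range (min n 7), f i * (2 ^ 240) ^ i

theorem sum_lt_pow (X : ℕ) (f : ℕ → ℕ) (hf : ∀ i, f i < X) :
    ∀ k, ∑ i ∈ range k, f i * X ^ i < X ^ k
  | 0 => by simp
  | k + 1 => by
    rw [sum_range_succ, pow_succ]
    have h1 := sum_lt_pow X f hf k
    have h2 : f k * X ^ k ≤ (X - 1) * X ^ k := Nat.mul_le_mul_right _ (by have := hf k; omega)
    have h3 : (X - 1) * X ^ k + X ^ k = X ^ k * X := by
      have : X - 1 + 1 = X := by have := hf k; omega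
      calc (X - 1) * X ^ k + X ^ k = (X - 1 + 1) * X ^ k := by ring
        _ = X ^ k * X := by rw [this, mul_comm]
    omega

theorem RV_step (n : ℕ) (f g : ℕ → ℕ) (hf : ∀ i, g i < 2 ^ 240) (hfg : ∀ i, g (i + 1) = f i) :
    (RV n f * 2 ^ 240 + g 0) % 2 ^ 1680 = RV (n + 1) g := by
  have h1 : RV n f * 2 ^ 240 + g 0 = ∑ i ∈ range (min n 7 + 1), g i * (2 ^ 240) ^ i := by
    rw [sum_range_succ', RV, sum_mul]
    congr 1
    · refine sum_congr rfl fun i _ => ?_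
      rw [hfg, pow_succ]
      ring
    · rw [pow_zero, mul_one]
  have e7 : (2 ^ 1680 : ℕ) = (2 ^ 240) ^ 7 := by rw [← pow_mul]
  rw [h1, e7]
  rcases Nat.lt_or_ge n 7 with h | h
  · have h2 : min n 7 + 1 = min (n + 1) 7 := by omega
    rw [h2, RV]
    have h3 := sum_lt_pow (2 ^ 240) g hf (min (n + 1) 7)
    refine Nat.mod_eq_of_lt (h3.trans_le ?_)
    exact Nat.pow_le_pow_right (by positivity) (by omega)
  · have h2 : min n 7 + 1 = 7 + 1 := by omega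
    have h3 : min (n + 1) 7 = 7 := by omega
    rw [h2, RV, h3, sum_range_succ, Nat.add_mul_mod_self_right]
    exact Nat.mod_eq_of_lt (sum_lt_pow (2 ^ 240) g hf 7)

/-! ### extraction of the sums -/

theorem cof_eq : cof = ∑ i ∈ range 7, 73 ^ i * 256 ^ (6 - i) * (2 ^ 240) ^ (6 - i) := by
  unfold cof
  simp only [sum_range_succ, sum_range_zero, zero_add]
  norm_num

/-- The coefficient. -/
def cc (i : ℕ) : ℕ := 73 ^ i * 256 ^ (6 - i)

theorem conv_id (X : ℕ) (r c : ℕ → ℕ) :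
    (r 0 + r 1 * X + r 2 * X ^ 2 + r 3 * X ^ 3 + r 4 * X ^ 4 + r 5 * X ^ 5 + r 6 * X ^ 6) *
      (c 0 * X ^ 6 + c 1 * X ^ 5 + c 2 * X ^ 4 + c 3 * X ^ 3 + c 4 * X ^ 2 + c 5 * X + c 6) =
    ((r 0 * c 6) + (r 0 * c 5 + r 1 * c 6) * X + (r 0 * c 4 + r 1 * c 5 + r 2 * c 6) * X ^ 2 +
      (r 0 * c 3 + r 1 * c 4 + r 2 * c 5 + r 3 * c 6) * X ^ 3 +
      (r 0 * c 2 + r 1 * c 3 + r 2 * c 4 + r 3 * c 5 + r 4 * c 6) * X ^ 4 +
      (r 0 * c 1 + r 1 * c 2 + r 2 * c 3 + r 3 * c 4 + r 4 * c 5 + r 5 * c 6) * X ^ 5) +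
    X ^ 6 * ((r 0 * c 0 + r 1 * c 1 + r 2 * c 2 + r 3 * c 3 + r 4 * c 4 + r 5 * c 5 + r 6 * c 6) +
      X * ((r 1 * c 0 + r 2 * c 1 + r 3 * c 2 + r 4 * c 3 + r 5 * c 4 + r 6 * c 5) +
        (r 2 * c 0 + r 3 * c 1 + r 4 * c 2 + r 5 * c 3 + r 6 * c 4) * X +
        (r 3 * c 0 + r 4 * c 1 + r 5 * c 2 + r 6 * c 3) * X ^ 2 +
        (r 4 * c 0 + r 5 * c 1 + r 6 * c 2) * X ^ 3 + (r 5 * c 0 + r 6 * c 1) * X ^ 4 +
        (r 6 * c 0) * X ^ 5)) := by
  ring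

theorem cc_sum (r : ℕ → ℕ) (hr : ∀ i, r i < 2 ^ 192) :
    ∃ f : ℕ → ℕ, (∀ i, f i < 2 ^ 240) ∧ f 0 = r 0 * cc 6 ∧ f 1 = r 0 * cc 5 + r 1 * cc 6 ∧
      f 2 = r 0 * cc 4 + r 1 * cc 5 + r 2 * cc 6 ∧
      f 3 = r 0 * cc 3 + r 1 * cc 4 + r 2 * cc 5 + r 3 * cc 6 ∧
      f 4 = r 0 * cc 2 + r 1 * cc 3 + r 2 * cc 4 + r 3 * cc 5 + r 4 * cc 6 ∧
      f 5 = r 0 * cc 1 + r 1 * cc 2 + r 2 * cc 3 + r 3 * cc 4 + r 4 * cc 5 + r 5 * cc 6 := by
  have h0 := hr 0
  have h1 := hr 1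
  have h2 := hr 2
  have h3 := hr 3
  have h4 := hr 4
  have h5 := hr 5
  refine ⟨fun i => match i with
    | 0 => r 0 * cc 6
    | 1 => r 0 * cc 5 + r 1 * cc 6
    | 2 => r 0 * cc 4 + r 1 * cc 5 + r 2 * cc 6
    | 3 => r 0 * cc 3 + r 1 * cc 4 + r 2 * cc 5 + r 3 * cc 6
    | 4 => r 0 * cc 2 + r 1 * cc 3 + r 2 * cc 4 + r 3 * cc 5 + r 4 * cc 6
    | 5 => r 0 * cc 1 + r 1 * cc 2 + r 2 * cc 3 + r 3 * cc 4 + r 4 * cc 5 + r 5 * cc 6
    | _ => 0, ?_, rfl, rfl, rfl, rfl, rfl, rfl⟩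
  intro i
  match i with
  | 0 => simp only [cc]; omega
  | 1 => simp only [cc]; omega
  | 2 => simp only [cc]; omega
  | 3 => simp only [cc]; omega
  | 4 => simp only [cc]; omega
  | 5 => simp only [cc]; omega
  | n + 6 => simp only []; positivity

theorem rr_lt' (T : T3) (i m : ℕ) : rr T i m < 2 ^ 192 := by
  unfold rr
  have h0 := gn_lt T (4 ^ i * m)
  have h1 := gn_lt T (4 ^ i * (m + 1594323))
  have h2 := gn_lt T (4 ^ i * (m + 2 * 1594323))
  omega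

theorem Un_lt (T : T3) (a : ℕ) : Un T a < 2 ^ 80 := by
  unfold Un
  simp only [sum_range_succ, sum_range_zero]
  have h0 := gn_lt T (4 ^ 0 * a)
  have h1 := gn_lt T (4 ^ 1 * a)
  have h2 := gn_lt T (4 ^ 2 * a)
  have h3 := gn_lt T (4 ^ 3 * a)
  have h4 := gn_lt T (4 ^ 4 * a)
  have h5 := gn_lt T (4 ^ 5 * a)
  have h6 := gn_lt T (4 ^ 6 * a)
  omega

theorem ext_RC (T : T3) (m : ℕ) : ∃ Q : ℕ,
    (RV 7 (fun i => rr T i m) * cof) / 2 ^ 1440 =
      Un T m + Un T (m + 1594323) * 2 ^ 80 + Un T (m + 2 * 1594323) * 2 ^ 160 + 2 ^ 240 * Q := by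
  obtain ⟨f, hf, f0, f1, f2, f3, f4, f5⟩ := cc_sum (fun i => rr T i m) (fun i => rr_lt' T i m)
  have hL := sum_lt_pow (2 ^ 240) f hf 6
  simp only [sum_range_succ, sum_range_zero, zero_add, pow_zero, mul_one, pow_one, f0, f1, f2, f3,
    f4, f5] at hL
  have e6 : (2 ^ 1440 : ℕ) = (2 ^ 240) ^ 6 := by rw [← pow_mul]
  have hR : RV 7 (fun i => rr T i m) = rr T 0 m + rr T 1 m * 2 ^ 240 + rr T 2 m * (2 ^ 240) ^ 2 +
      rr T 3 m * (2 ^ 240) ^ 3 + rr T 4 m * (2 ^ 240) ^ 4 + rr T 5 m * (2 ^ 240) ^ 5 +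
      rr T 6 m * (2 ^ 240) ^ 6 := by
    unfold RV
    simp only [min_self, sum_range_succ, sum_range_zero, zero_add, pow_zero, mul_one, pow_one]
  have hC : cof = cc 0 * (2 ^ 240) ^ 6 + cc 1 * (2 ^ 240) ^ 5 + cc 2 * (2 ^ 240) ^ 4 +
      cc 3 * (2 ^ 240) ^ 3 + cc 4 * (2 ^ 240) ^ 2 + cc 5 * 2 ^ 240 + cc 6 := by
    rw [cof_eq]
    simp only [sum_range_succ, sum_range_zero, zero_add, cc]
    norm_num
  have key := conv_id (2 ^ 240) (fun i => rr T i m) cc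
  rw [hR, hC, e6]
  rw [key, Nat.add_mul_div_left _ _ (by positivity), Nat.div_eq_of_lt hL, zero_add]
  refine ⟨_, congrArg₂ (· + ·) ?_ rfl⟩
  unfold Un rr
  simp only [sum_range_succ, sum_range_zero, zero_add, cc]
  ring

end

end Pool.Agent.helper62.K3
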