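import Pool.Agent.helper62.K3.Snd2

/-! Project K3X (MP_08f931): soundness of the checker, runs. helper62. -/

set_option exponentiation.threshold 3000

namespace Pool.Agent.helper62.K3

open Finset

noncomputable section

/-- What the checker proves at `m`. -/
structure Good (T : T3) (m : ℕ) : Prop where
  pos : 1 ≤ pv T m
  hi : (pv T m ^ 14 * 2 ^ 908 / Un T m ^ 14 + 1) +
    ((pv T m ^ 14 * 2 ^ 908 / Un T (m + 1594323) ^ 14 + 1) +
      (pv T m ^ 14 * 2 ^ 908 / Un T (m + 2 * 1594323) ^ 14 + 1)) ≤ 2971628820000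
  lo : ∃ H0 H1 H2 : ℕ, hs T 7 m ≤ H0 ∧ hs T 7 (m + 1594323) ≤ H1 ∧
    hs T 7 (m + 2 * 1594323) ≤ H2 ∧
    (H0 * 2 ^ 950 / Un T m ^ 15 + 1) + ((H1 * 2 ^ 950 / Un T (m + 1594323) ^ 15 + 1) +
      (H2 * 2 ^ 950 / Un T (m + 2 * 1594323) ^ 15 + 1)) ≤ 1325288500000 * ev T m
  th : ∃ G0 G1 G2 : ℕ, ht T 7 m ≤ G0 ∧ ht T 7 (m + 1594323) ≤ G1 ∧
    ht T 7 (m + 2 * 1594323) ≤ G2 ∧
    (G0 * 2 ^ 68 / Un T m + 1) + ((G1 * 2 ^ 68 / Un T (m + 1594323) + 1) +
      (G2 * 2 ^ 68 / Un T (m + 2 * 1594323) + 1)) ≤ 2847343370000 * lv T m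

/-- The state before the step at `m`. -/
structure Pre (T : T3) (n m R H0 H1 H2 G0 G1 G2 : ℕ) : Prop where
  mod : m % 3 = 2
  reg : R = RV n (fun i => rr T (i + 1) m)
  s0 : hs T n (4 * m) ≤ H0
  s1 : hs T n (4 * (m + 1594323)) ≤ H1
  s2 : hs T n (4 * (m + 2 * 1594323)) ≤ H2
  t0 : ht T n (4 * m) ≤ G0
  t1 : ht T n (4 * (m + 1594323)) ≤ G1
  t2 : ht T n (4 * (m + 2 * 1594323)) ≤ G2

/-- The state after the step at `m`. -/
structure Post (T : T3) (n m R H0 H1 H2 G0 G1 G2 : ℕ) : Prop where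
  mod : m % 3 = 2
  reg : R = RV n (fun i => rr T i m)
  s0 : hs T n m ≤ H0
  s1 : hs T n (m + 1594323) ≤ H1
  s2 : hs T n (m + 2 * 1594323) ≤ H2
  t0 : ht T n m ≤ G0
  t1 : ht T n (m + 1594323) ≤ G1
  t2 : ht T n (m + 2 * 1594323) ≤ G2

theorem gam_nn : 0 ≤ gam := by unfold gam; positivity

theorem gan_nn : 0 ≤ gan := by unfold gan; positivity

theorem pre_post (T : T3) (k : ℕ → ℕ → ℕ → ℕ → ℕ → ℕ → ℕ → Bool) (n m R H0 H1 H2 G0 G1 G2 : ℕ)
    (hp : Pre T n m R H0 H1 H2 G0 G1 G2) (h : stp T k m R H0 H1 H2 G0 G1 G2 = true) :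
    ∃ R' H0' H1' H2' G0' G1' G2' : ℕ, k R' H0' H1' H2' G0' G1' G2' = true ∧
      Post T (n + 1) m R' H0' H1' H2' G0' G1' G2' := by
  obtain ⟨R', H0', H1', H2', G0', G1', G2', hk, hR, h0, h1, h2, g0, g1, g2⟩ :=
    stp_spec T k m R H0 H1 H2 G0 G1 G2 hp.mod h
  refine ⟨R', H0', H1', H2', G0', G1', G2', hk, hp.mod, ?_, ?_, ?_, ?_, ?_, ?_, ?_⟩
  · rw [hR, hp.reg]
    exact RV_step n (fun i => rr T (i + 1) m) (fun i => rr T i m) (fun i => rr_lt T i m)
      (fun i => rfl)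
  · rw [hs_succ]
    have := mul_le_mul_of_nonneg_left hp.s0 gam_nn
    linarith
  · rw [hs_succ]
    have := mul_le_mul_of_nonneg_left hp.s1 gam_nn
    linarith
  · rw [hs_succ]
    have := mul_le_mul_of_nonneg_left hp.s2 gam_nn
    linarith
  · rw [ht_succ]
    have := mul_le_mul_of_nonneg_left hp.t0 gan_nn
    linarith
  · rw [ht_succ]
    have := mul_le_mul_of_nonneg_left hp.t1 gan_nn
    linarith
  · rw [ht_succ]
    have := mul_le_mul_of_nonneg_left hp.t2 gan_nn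
    linarith

theorem post_pre (T : T3) (n m R H0 H1 H2 G0 G1 G2 : ℕ) (hp : Post T n m R H0 H1 H2 G0 G1 G2) :
    Pre T n (sg m) R H0 H1 H2 G0 G1 G2 := by
  have c0 := four_sg' m 0
  have c1 := four_sg' m 1
  have c2 := four_sg' m 2
  simp only [zero_mul, add_zero, one_mul] at c0 c1
  refine ⟨?_, ?_, ?_, ?_, ?_, ?_, ?_, ?_⟩
  · rw [sg_mod3]; exact hp.mod
  · rw [hp.reg]
    unfold RV
    refine sum_congr rfl fun i _ => ?_
    simp only [rr_succ]
  · rw [hs_congr T c0]; exact hp.s0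
  · rw [hs_congr T c1]; exact hp.s1
  · rw [hs_congr T c2]; exact hp.s2
  · rw [ht_congr T c0]; exact hp.t0
  · rw [ht_congr T c1]; exact hp.t1
  · rw [ht_congr T c2]; exact hp.t2

theorem warm_spec (T : T3) (k : ℕ → ℕ → ℕ → ℕ → ℕ → ℕ → ℕ → ℕ → Bool) :
    ∀ (n j m R H0 H1 H2 G0 G1 G2 : ℕ),
    Pre T j m R H0 H1 H2 G0 G1 G2 → warm T k n m R H0 H1 H2 G0 G1 G2 = true →
    ∃ R' H0' H1' H2' G0' G1' G2' : ℕ, k (sg^[n] m) R' H0' H1' H2' G0' G1' G2' = true ∧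
      Pre T (j + n) (sg^[n] m) R' H0' H1' H2' G0' G1' G2'
  | 0, j, m, R, H0, H1, H2, G0, G1, G2, hp, h => ⟨R, H0, H1, H2, G0, G1, G2, h, hp⟩
  | n + 1, j, m, R, H0, H1, H2, G0, G1, G2, hp, h => by
    have h' : stp T (fun R H0 H1 H2 G0 G1 G2 => warm T k n (sg m) R H0 H1 H2 G0 G1 G2)
      m R H0 H1 H2 G0 G1 G2 = true := h
    obtain ⟨R', H0', H1', H2', G0', G1', G2', hk, hq⟩ :=
      pre_post T _ j m R H0 H1 H2 G0 G1 G2 hp h'
    obtain ⟨R2, A0, A1, A2, B0, B1, B2, hk2, hq2⟩ := warm_spec T k n (j + 1) (sg m) R' H0' H1' H2'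
      G0' G1' G2' (post_pre T _ _ _ _ _ _ _ _ _ hq) hk
    refine ⟨R2, A0, A1, A2, B0, B1, B2, ?_, ?_⟩
    · rw [Function.iterate_succ_apply]; exact hk2
    · rw [Function.iterate_succ_apply]
      have : j + (n + 1) = j + 1 + n := by ring
      rw [this]
      exact hq2

theorem ht_mono (T : T3) (a : ℕ) {n k : ℕ} (h : n ≤ k) : ht T n a ≤ ht T k a := by
  unfold ht
  refine sum_le_sum_of_subset_of_nonneg (range_mono h) fun i _ _ => ?_
  have := gan_nn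
  positivity

theorem hs_mono (T : T3) (a : ℕ) {n k : ℕ} (h : n ≤ k) : hs T n a ≤ hs T k a := by
  unfold hs
  refine sum_le_sum_of_subset_of_nonneg (range_mono h) fun i _ _ => ?_
  have := gam_nn
  positivity

theorem RV_ge (n : ℕ) (f : ℕ → ℕ) (h : 7 ≤ n) : RV n f = RV 7 f := by
  unfold RV
  rw [min_eq_right h, min_self]

theorem land80 (z : ℕ) : Nat.land z (2 ^ 80 - 1) = z % 2 ^ 80 :=
  Nat.and_two_pow_sub_one_eq_mod z 80

theorem shr_eq (z n : ℕ) : Nat.shiftRight z n = z / 2 ^ n := Nat.shiftRight_eq_div_pow z n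

theorem shl_eq (z n : ℕ) : Nat.shiftLeft z n = z * 2 ^ n := Nat.shiftLeft_eq z n

theorem hq_eq (N U : ℕ) : hq N U = N / U ^ 14 + 1 := rfl

theorem lq_eq (H U : ℕ) : lq H U = H * 2 ^ 950 / U ^ 15 + 1 := by
  have h : lq H U = (H <<< 950) / U ^ 15 + 1 := rfl
  rw [h, Nat.shiftLeft_eq]

theorem gq_eq (G U : ℕ) : gq G U = G * 2 ^ 68 / U + 1 := by
  have h : gq G U = (G <<< 68) / U + 1 := rfl
  rw [h, Nat.shiftLeft_eq]

theorem tst_good (T : T3) (n m R H0 H1 H2 G0 G1 G2 : ℕ) (hn : 7 ≤ n)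
    (hp : Post T n m R H0 H1 H2 G0 G1 G2)
    (h : tst T cof m R H0 H1 H2 G0 G1 G2 = true) : Good T m := by
  obtain ⟨Q, hQ⟩ := ext_RC T m
  have hR : R = RV 7 (fun i => rr T i m) := by rw [hp.reg, RV_ge _ _ hn]
  have e0 : Nat.shiftRight (Nat.mul R cof) 1440 = Un T m + Un T (m + 1594323) * 2 ^ 80 +
      Un T (m + 2 * 1594323) * 2 ^ 160 + 2 ^ 240 * Q := by
    rw [shr_eq, hR]; exact hQ
  have b0 := Un_lt T m
  have b1 := Un_lt T (m + 1594323)
  have b2 := Un_lt T (m + 2 * 1594323)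
  have e1 : Nat.land (Nat.shiftRight (Nat.mul R cof) 1440) (2 ^ 80 - 1) = Un T m := by
    rw [land80, e0]; omega
  have e2 : Nat.land (Nat.shiftRight (Nat.shiftRight (Nat.mul R cof) 1440) 80) (2 ^ 80 - 1) =
      Un T (m + 1594323) := by
    rw [land80, shr_eq _ 80, e0]; omega
  have e3 : Nat.land (Nat.shiftRight (Nat.shiftRight (Nat.mul R cof) 1440) 160) (2 ^ 80 - 1) =
      Un T (m + 2 * 1594323) := by
    rw [land80, shr_eq _ 160, e0]; omega
  have h1 : tst1 (en T (m % 1594323 / 3))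
      (Nat.land (Nat.shiftRight (Nat.mul R cof) 1440) (2 ^ 80 - 1))
      (Nat.land (Nat.shiftRight (Nat.shiftRight (Nat.mul R cof) 1440) 80) (2 ^ 80 - 1))
      (Nat.land (Nat.shiftRight (Nat.shiftRight (Nat.mul R cof) 1440) 160) (2 ^ 80 - 1))
      H0 H1 H2 G0 G1 G2 = true := h
  rw [e1, e2, e3] at h1
  unfold tst1 at h1
  rw [brec, brec, brec] at h1
  simp only [land16, shr16, shl_eq, land8, shr24] at h1
  have hP : en T (m % 1594323 / 3) % 65536 = pv T m := rfl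
  have hE : hv (en T (m % 1594323 / 3) / 65536 % 256) = ev T m := rfl
  have hL : hw (en T (m % 1594323 / 3) / 16777216) = lv T m := rfl
  rw [hP, hE, hL] at h1
  simp only [Bool.cond_false_right, Bool.and_eq_true, Nat.ble_eq, hq_eq, lq_eq, gq_eq, Nat.add_eq,
    Nat.mul_eq, Nat.pow_eq] at h1
  obtain ⟨a1, a4, a2, a3⟩ := h1
  refine ⟨a1, ?_, ⟨H0, H1, H2, (hs_mono T _ hn).trans hp.s0, (hs_mono T _ hn).trans hp.s1,
    (hs_mono T _ hn).trans hp.s2, ?_⟩, ⟨G0, G1, G2, (ht_mono T _ hn).trans hp.t0,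
    (ht_mono T _ hn).trans hp.t1, (ht_mono T _ hn).trans hp.t2, ?_⟩⟩
  · exact a3
  · exact a2
  · exact a4

/-- Soundness of a run. -/
theorem run_spec (T : T3) (e : ℕ) : ∀ (n j m R H0 H1 H2 G0 G1 G2 : ℕ), 6 ≤ j →
    Pre T j m R H0 H1 H2 G0 G1 G2 → run T cof e n m R H0 H1 H2 G0 G1 G2 = true →
    (∀ i < n, Good T (sg^[i] m)) ∧ sg^[n] m = e
  | 0, j, m, R, H0, H1, H2, G0, G1, G2, _, _, h => by
    refine ⟨fun i hi => absurd hi (Nat.not_lt_zero i), ?_⟩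
    exact Nat.eq_of_beq_eq_true h
  | n + 1, j, m, R, H0, H1, H2, G0, G1, G2, hj, hp, h => by
    have h' : stp T (fun R H0 H1 H2 G0 G1 G2 =>
      Bool.rec (motive := fun _ => Bool) false (run T cof e n (sg m) R H0 H1 H2 G0 G1 G2)
        (tst T cof m R H0 H1 H2 G0 G1 G2)) m R H0 H1 H2 G0 G1 G2 = true := h
    obtain ⟨R', H0', H1', H2', G0', G1', G2', hk, hq⟩ :=
      pre_post T _ j m R H0 H1 H2 G0 G1 G2 hp h'
    rw [brec] at hk
    simp only [Bool.cond_false_right, Bool.and_eq_true] at hk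
    have hg := tst_good T (j + 1) m R' H0' H1' H2' G0' G1' G2' (by omega) hq hk.1
    have ih := run_spec T e n (j + 1) (sg m) R' H0' H1' H2' G0' G1' G2' (by omega)
      (post_pre T _ _ _ _ _ _ _ _ _ hq) hk.2
    refine ⟨fun i hi => ?_, ?_⟩
    · rcases i with _ | i
      · exact hg
      · rw [Function.iterate_succ_apply]
        exact ih.1 i (by omega)
    · rw [Function.iterate_succ_apply]
      exact ih.2

/-- The statement for a chunk. -/
def CK (T : T3) (n m e : ℕ) : Prop := (∀ i < n, Good T (sg^[i] m)) ∧ sg^[n] m = e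

theorem CK.trans {T : T3} {n n' m e e' : ℕ} (h : CK T n m e) (h' : CK T n' e e') :
    CK T (n + n') m e' := by
  refine ⟨fun i hi => ?_, ?_⟩
  · rcases Nat.lt_or_ge i n with h1 | h1
    · exact h.1 i h1
    · have h2 := h'.1 (i - n) (by omega)
      rw [← h.2, ← Function.iterate_add_apply] at h2
      have : i - n + n = i := by omega
      rwa [this] at h2
  · rw [Nat.add_comm, Function.iterate_add_apply, h.2, h'.2]

/-- The check of a chunk. -/
def chunk (T : T3) (C n m e : ℕ) : Bool :=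
  warm T (run T C e n) 7 (Nat.mod (Nat.mul m 16384) 4782969) 0 0 0 0 0 0 0

theorem sg7 (m : ℕ) (h : m < 4782969) : sg^[7] (m * 16384 % 4782969) = m := by
  simp only [Function.iterate_succ_apply', Function.iterate_zero_apply, sg]
  omega

theorem chunk_ck (T : T3) (n m e : ℕ) (hm : m < 4782969) (h3 : m % 3 = 2)
    (h : chunk T cof n m e = true) : CK T n m e := by
  have hp : Pre T 0 (m * 16384 % 4782969) 0 0 0 0 0 0 0 := by
    refine ⟨by omega, ?_, ?_, ?_, ?_, ?_, ?_, ?_⟩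
    · simp [RV]
    · simp [hs]
    · simp [hs]
    · simp [hs]
    · simp [ht]
    · simp [ht]
    · simp [ht]
  obtain ⟨R', H0', H1', H2', G0', G1', G2', hk, hq⟩ := warm_spec T _ 7 0 _ 0 0 0 0 0 0 0 hp h
  rw [sg7 m hm] at hk hq
  exact run_spec T e n (0 + 7) m R' H0' H1' H2' G0' G1' G2' (by norm_num) hq hk

end

end Pool.Agent.helper62.K3
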