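import Mathlib

/-! Project K3X (MP_08f931): ternary trees of packed numbers. helper62. -/

namespace Pool.Agent.helper62.K3

/-- Ternary trees of numbers. -/
inductive T3 : Type
  | lf (v : ℕ)
  | nd (a b c : T3)

/-- The leaf at `i` (ternary digits from below). -/
noncomputable def T3.get (t : T3) : ℕ → ℕ :=
  T3.rec (motive := fun _ => ℕ → ℕ) (fun v _ => v)
    (fun _ _ _ fa fb fc i =>
      Bool.rec (motive := fun _ => ℕ)
        (Bool.rec (motive := fun _ => ℕ) (fc (Nat.div i 3)) (fb (Nat.div i 3))
          (Nat.beq (Nat.mod i 3) 1))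
        (fa (Nat.div i 3)) (Nat.beq (Nat.mod i 3) 0)) t

end Pool.Agent.helper62.K3
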